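import Mathlib

set_option autoImplicit false
open MeasureTheory Metric Set Filter Topology

namespace Pool.Agent.H846R2.QC

noncomputable section

abbrev E := EuclideanSpace ℝ (Fin 2)

/-- clamp of `√s` to `[1/N^2, 1/N]` -/
def w (N s : ℝ) : ℝ := max (1/N^2) (min (√s) (1/N))
/-- radial magnification factor -/
def m (N s : ℝ) : ℝ := 1/(N * w N s)

lemma w_pos {N : ℝ} (hN : 1 ≤ N) (s : ℝ) : 0 < w N s := by
  unfold w
  have : 0 < 1/N^2 := by positivity
  exact lt_max_of_lt_left this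

lemma w_mono {N : ℝ} {s t : ℝ} (h : s ≤ t) : w N s ≤ w N t := by
  unfold w
  exact max_le_max le_rfl (min_le_min (Real.sqrt_le_sqrt h) le_rfl)

lemma w_le {N : ℝ} (hN : 1 ≤ N) (s : ℝ) : w N s ≤ 1/N := by
  unfold w
  apply max_le _ (min_le_right _ _)
  apply one_div_le_one_div_of_le (by positivity)
  nlinarith

lemma m_pos {N : ℝ} (hN : 1 ≤ N) (s : ℝ) : 0 < m N s := by
  unfold m
  have := w_pos hN s
  positivity

lemma one_le_m {N : ℝ} (hN : 1 ≤ N) (s : ℝ) : 1 ≤ m N s := by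
  unfold m
  have h := w_pos hN s
  have h1 := w_le hN s
  have hN0 : 0 < N := by linarith
  rw [le_div_iff₀ (by positivity)]
  have : N * w N s ≤ N * (1/N) := by gcongr
  rw [mul_one_div_cancel hN0.ne'] at this
  linarith

lemma m_anti {N : ℝ} (hN : 1 ≤ N) {s t : ℝ} (h : s ≤ t) : m N t ≤ m N s := by
  unfold m
  have h1 := w_pos hN s
  have hN0 : 0 < N := by linarith
  apply one_div_le_one_div_of_le (by positivity)
  gcongr
  exact w_mono h

lemma m_cont {N : ℝ} (hN : 1 ≤ N) : Continuous (m N) := by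
  unfold m
  apply Continuous.div continuous_const
  · apply Continuous.mul continuous_const
    unfold w
    fun_prop
  · intro s
    have h1 := w_pos hN s
    have hN0 : 0 < N := by linarith
    positivity

/-- `m = 1` outside -/
lemma m_outer {N : ℝ} (hN : 1 ≤ N) {s : ℝ} (h : 1/N^2 ≤ s) : m N s = 1 := by
  have hN0 : 0 < N := by linarith
  have h1 : 1/N ≤ √s := by
    rw [show (1/N : ℝ) = √(1/N^2) by
      rw [Real.sqrt_div zero_le_one, Real.sqrt_one, Real.sqrt_sq hN0.le]]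
    exact Real.sqrt_le_sqrt h
  have h2 : w N s = 1/N := by
    unfold w
    rw [min_eq_right h1]
    apply max_eq_right
    apply one_div_le_one_div_of_le (by positivity)
    nlinarith
  unfold m
  rw [h2]
  field_simp

/-- `m = N` inside -/
lemma m_inner {N : ℝ} (hN : 1 ≤ N) {s : ℝ} (h : s ≤ 1/N^4) : m N s = N := by
  have hN0 : 0 < N := by linarith
  have h1 : √s ≤ 1/N^2 := by
    rw [show (1/N^2 : ℝ) = √(1/N^4) by
      rw [Real.sqrt_div zero_le_one, Real.sqrt_one, show N^4 = (N^2)^2 by ring,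
        Real.sqrt_sq (by positivity)]]
    exact Real.sqrt_le_sqrt h
  have h2 : w N s = 1/N^2 := by
    unfold w
    apply max_eq_left
    exact (min_le_left _ _).trans h1
  unfold m
  rw [h2]
  field_simp

/-- sub-homogeneity of the clamp -/
lemma w_hom {N : ℝ} (hN : 1 ≤ N) {s t : ℝ} (h : s ≤ t) :
    √s * w N t ≤ √t * w N s := by
  have hN0 : 0 < N := by linarith
  have hA : 0 < 1/N^2 := by positivity
  have hB : 0 < 1/N := by positivity
  have h0 : 0 ≤ √s := Real.sqrt_nonneg _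
  have h1 : √s ≤ √t := Real.sqrt_le_sqrt h
  have h2 : 1/N^2 ≤ w N s := le_max_left _ _
  have h3 : min (√s) (1/N) ≤ w N s := le_max_right _ _
  have hAB : 1/N^2 ≤ 1/N := by
    apply one_div_le_one_div_of_le (by positivity)
    nlinarith
  rcases le_total (√s) (1/N) with h4 | h4
  · rw [min_eq_left h4] at h3
    have h5 : w N t ≤ max (1/N^2) (√t) := by
      unfold w
      exact max_le_max le_rfl (min_le_left _ _)
    rcases le_total (1/N^2) (√t) with h6 | h6
    · rw [max_eq_right h6] at h5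
      nlinarith
    · rw [max_eq_left h6] at h5
      nlinarith
  · rw [min_eq_right h4] at h3
    have h5 := w_le hN t
    nlinarith

/-- key inequality -/
lemma m_key {N : ℝ} (hN : 1 ≤ N) {s t : ℝ} (hs : 0 ≤ s) (h : s ≤ t) :
    2 * s * m N s ≤ (s + t) * m N t := by
  have hN0 : 0 < N := by linarith
  have h1 := w_pos hN s
  have h2 := w_pos hN t
  have h3 := w_hom hN h
  have h4 : s * w N t * 2 ≤ (s+t) * w N s := by
    have e1 : s = √s * √s := (Real.mul_self_sqrt hs).symm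
    have e2 : t = √t * √t := (Real.mul_self_sqrt (hs.trans h)).symm
    have h0 : 0 ≤ √s := Real.sqrt_nonneg _
    have h0' : 0 ≤ √t := Real.sqrt_nonneg _
    have h5 : √s * (√s * w N t) ≤ √s * (√t * w N s) := by gcongr
    have h6 : 0 ≤ (√s - √t)^2 * w N s := by positivity
    have h7 : s * w N t = √s * (√s * w N t) := by rw [← mul_assoc, ← e1]
    have h8 : (s + t) * w N s = (√s * √s + √t * √t) * w N s := by rw [← e1, ← e2]
    rw [h7, h8]
    nlinarith
  unfold m
  rw [mul_one_div, mul_one_div, div_le_div_iff₀ (by positivity) (by positivity)]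
  nlinarith

/-- Hölder-type bound for `m`. -/
lemma m_holder {N : ℝ} (hN : 1 ≤ N) {s : ℝ} (hs : 0 < s) (h1 : s ≤ 1) :
    √(√s) * m N s ≤ 1 := by
  have hN0 : 0 < N := by linarith
  have hw := w_pos hN s
  unfold m
  rw [mul_one_div, div_le_one (by positivity)]
  have h2 : 1/N^2 ≤ w N s := le_max_left _ _
  have h3 : min (√s) (1/N) ≤ w N s := le_max_right _ _
  have hu : 0 < √s := Real.sqrt_pos.mpr hs
  have hu1 : √s ≤ 1 := by rw [← Real.sqrt_one]; exact Real.sqrt_le_sqrt h1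
  have hv : 0 < √(√s) := Real.sqrt_pos.mpr hu
  have hv1 : √(√s) ≤ 1 := by
    rw [← Real.sqrt_one]; exact Real.sqrt_le_sqrt hu1
  have hvv : √(√s) * √(√s) = √s := Real.mul_self_sqrt hu.le
  rcases le_total (√s) (1/N) with h4 | h4
  · rw [min_eq_left h4] at h3
    rcases le_total (√(√s)) (1/N) with h6 | h6
    · have : N * (1/N^2) ≤ N * w N s := by gcongr
      have e : N * (1/N^2) = 1/N := by field_simp
      linarith
    · have h7 : 1 ≤ N * √(√s) := by
        rw [div_le_iff₀ hN0] at h6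
        linarith
      calc √(√s) ≤ √(√s) * (N * √(√s)) := by nlinarith
        _ = N * (√(√s) * √(√s)) := by ring
        _ = N * √s := by rw [hvv]
        _ ≤ N * w N s := by gcongr
  · rw [min_eq_right h4] at h3
    have : N * (1/N) ≤ N * w N s := by gcongr
    rw [mul_one_div_cancel hN0.ne'] at this
    linarith

/-- the one-ball radial map -/
def phi (N : ℝ) (x : E) : E := m N ‖x‖ • x

open scoped RealInnerProductSpace

lemma phi_upper_aux {N : ℝ} (hN : 1 ≤ N) {x y : E} (h : ‖x‖ ≤ ‖y‖) :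
    ‖phi N x - phi N y‖ ≤ m N ‖x‖ * ‖x - y‖ := by
  have hb := m_pos hN ‖y‖
  have hab := m_anti hN h
  have hk := m_key hN (norm_nonneg x) h
  have hI := real_inner_le_norm x y
  have hx := norm_nonneg x
  have e1 : ‖phi N x - phi N y‖^2 = (m N ‖x‖ * ‖x‖)^2 - 2 * (m N ‖x‖ * (m N ‖y‖ * ⟪x, y⟫)) + (m N ‖y‖ * ‖y‖)^2 := by
    unfold phi
    rw [norm_sub_sq_real, norm_smul, norm_smul, real_inner_smul_left, real_inner_smul_right,
      Real.norm_of_nonneg (m_pos hN _).le, Real.norm_of_nonneg (m_pos hN _).le]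
  have e2 : ‖x - y‖^2 = ‖x‖^2 - 2 * ⟪x, y⟫ + ‖y‖^2 := norm_sub_sq_real x y
  apply le_of_sq_le_sq _ (by have := norm_nonneg (x-y); have := m_pos hN ‖x‖; positivity)
  rw [mul_pow, e1, e2]
  set a := m N ‖x‖
  set b := m N ‖y‖
  set s := ‖x‖
  set t := ‖y‖
  set I := (⟪x, y⟫ : ℝ)
  have ha : 0 < a := m_pos hN s
  -- (a-b) * ((a+b) t^2 - 2 a I) ≥ 0
  have h1 : 2 * a * I ≤ (a+b) * t^2 := by
    have : a * I ≤ a * (s * t) := by gcongr
    have h2 : 2 * (s * a) ≤ (a + b) * t := by nlinarith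
    have h3 : 2 * (s * a) * t ≤ (a + b) * t * t := by
      apply mul_le_mul_of_nonneg_right h2 (hx.trans h)
    nlinarith
  nlinarith [mul_nonneg (sub_nonneg.mpr hab) (sub_nonneg.mpr h1)]

lemma phi_lower_aux {N : ℝ} (hN : 1 ≤ N) {x y : E} (h : ‖x‖ ≤ ‖y‖) :
    1/2 * m N ‖y‖ * ‖x - y‖ ≤ ‖phi N x - phi N y‖ := by
  have hb := m_pos hN ‖y‖
  have hab := m_anti hN h
  have hk := m_key hN (norm_nonneg x) h
  have hI := real_inner_le_norm x y
  have hx := norm_nonneg x
  have e1 : ‖phi N x - phi N y‖^2 = (m N ‖x‖ * ‖x‖)^2 - 2 * (m N ‖x‖ * (m N ‖y‖ * ⟪x, y⟫)) + (m N ‖y‖ * ‖y‖)^2 := by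
    unfold phi
    rw [norm_sub_sq_real, norm_smul, norm_smul, real_inner_smul_left, real_inner_smul_right,
      Real.norm_of_nonneg (m_pos hN _).le, Real.norm_of_nonneg (m_pos hN _).le]
  have e2 : ‖x - y‖^2 = ‖x‖^2 - 2 * ⟪x, y⟫ + ‖y‖^2 := norm_sub_sq_real x y
  apply le_of_sq_le_sq _ (norm_nonneg _)
  rw [mul_pow, mul_pow, e1, e2]
  set a := m N ‖x‖
  set b := m N ‖y‖
  set s := ‖x‖
  set t := ‖y‖
  set I := (⟪x, y⟫ : ℝ)
  have ha : 0 < a := m_pos hN s
  -- I ≤ s t
  have h1 : 0 ≤ (2 * a * b - b^2/2) * (s * t - I) := by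
    apply mul_nonneg
    · nlinarith
    · linarith
  have h2 : 1/2 * b * (t - s) ≤ b * t - a * s := by nlinarith
  have h3 : 0 ≤ 1/2 * b * (t - s) := by
    have := sub_nonneg.mpr h
    positivity
  have h4 : (1/2 * b * (t - s))^2 ≤ (b * t - a * s)^2 := by
    apply pow_le_pow_left₀ h3 h2
  nlinarith

lemma phi_upper {N : ℝ} (hN : 1 ≤ N) {x y : E} {s : ℝ} (h : s ≤ ‖x‖) (h' : s ≤ ‖y‖) :
    ‖phi N x - phi N y‖ ≤ m N s * ‖x - y‖ := by
  rcases le_total ‖x‖ ‖y‖ with h1 | h1
  · refine (phi_upper_aux hN h1).trans ?_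
    gcongr
    exact m_anti hN h
  · have := phi_upper_aux hN h1
    rw [norm_sub_rev, norm_sub_rev y x] at this
    refine this.trans ?_
    gcongr
    exact m_anti hN h'

lemma phi_lower {N : ℝ} (hN : 1 ≤ N) {x y : E} {t : ℝ} (h : ‖x‖ ≤ t) (h' : ‖y‖ ≤ t) :
    1/2 * m N t * ‖x - y‖ ≤ ‖phi N x - phi N y‖ := by
  rcases le_total ‖x‖ ‖y‖ with h1 | h1
  · refine le_trans ?_ (phi_lower_aux hN h1)
    gcongr
    exact m_anti hN h'
  · have := phi_lower_aux hN h1
    rw [norm_sub_rev (phi N y), norm_sub_rev y x] at this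
    refine le_trans ?_ this
    gcongr
    exact m_anti hN h

lemma phi_lower' {N : ℝ} (hN : 1 ≤ N) (x y : E) :
    1/2 * ‖x - y‖ ≤ ‖phi N x - phi N y‖ := by
  have h := phi_lower (x := x) (y := y) hN (le_max_left ‖x‖ ‖y‖) (le_max_right ‖x‖ ‖y‖)
  have h1 := one_le_m hN (max ‖x‖ ‖y‖)
  have h2 := norm_nonneg (x - y)
  nlinarith

/-- `‖phi x‖ ≤ (ρ + ‖x‖)/2` -/
lemma norm_phi {N : ℝ} (hN : 1 ≤ N) (x : E) : ‖phi N x‖ = m N ‖x‖ * ‖x‖ := by
  unfold phi
  rw [norm_smul, Real.norm_of_nonneg (m_pos hN _).le]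

lemma norm_phi_le {N : ℝ} (hN : 1 ≤ N) {x : E} (h : ‖x‖ ≤ 1/N^2) :
    ‖phi N x‖ ≤ (1/N^2 + ‖x‖)/2 := by
  rw [norm_phi hN]
  have := m_key hN (norm_nonneg x) h
  rw [m_outer hN le_rfl] at this
  linarith

lemma phi_sub_self {N : ℝ} (hN : 1 ≤ N) (x : E) :
    ‖phi N x - x‖ = (m N ‖x‖ - 1) * ‖x‖ := by
  have : phi N x - x = (m N ‖x‖ - 1) • x := by
    unfold phi; rw [sub_smul, one_smul]
  rw [this, norm_smul, Real.norm_of_nonneg]
  have := one_le_m hN ‖x‖
  linarith

lemma phi_outer {N : ℝ} (hN : 1 ≤ N) {x : E} (h : 1/N^2 ≤ ‖x‖) : phi N x = x := by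
  unfold phi
  rw [m_outer hN h, one_smul]

lemma phi_inner {N : ℝ} (hN : 1 ≤ N) {x : E} (h : ‖x‖ ≤ 1/N^4) : phi N x = N • x := by
  unfold phi
  rw [m_inner hN h]

/-- `‖phi x - x‖ ≤ ρ - ‖x‖`. -/
lemma phi_disp {N : ℝ} (hN : 1 ≤ N) {x : E} (h : ‖x‖ ≤ 1/N^2) :
    ‖phi N x - x‖ ≤ 1/N^2 - ‖x‖ := by
  rw [phi_sub_self hN]
  have h1 := norm_phi_le hN h
  rw [norm_phi hN] at h1
  nlinarith

/-- Hölder estimate of the one-ball map. -/
lemma phi_holder {N : ℝ} (hN : 1 ≤ N) (x y : E) :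
    ‖phi N x - phi N y‖ ≤ 4 * (m N ‖x - y‖ * ‖x - y‖) := by
  wlog h : ‖x‖ ≤ ‖y‖ generalizing x y with H
  · have := H y x (le_of_not_ge h)
    rwa [norm_sub_rev, norm_sub_rev y x] at this
  rcases le_total ‖x - y‖ ‖x‖ with h1 | h1
  · refine (phi_upper hN h1 (h1.trans h)).trans ?_
    have : 0 ≤ m N ‖x - y‖ * ‖x - y‖ := mul_nonneg (m_pos hN _).le (norm_nonneg _)
    linarith
  · have h2 : ‖y‖ ≤ 2 * ‖x - y‖ := by
      have : ‖y‖ ≤ ‖x‖ + ‖x - y‖ := by
        have := norm_sub_le x (x - y)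
        simpa using this
      linarith
    have h3 : ∀ z : E, ‖z‖ ≤ 2 * ‖x - y‖ → ‖phi N z‖ ≤ 2 * (m N ‖x - y‖ * ‖x - y‖) := by
      intro z hz
      rw [norm_phi hN]
      have k1 := m_key hN (norm_nonneg z) hz
      have k2 : m N (2 * ‖x - y‖) ≤ m N ‖x - y‖ := m_anti hN (by linarith [norm_nonneg (x - y)])
      have k3 := norm_nonneg (x-y)
      have k4 := m_pos hN (2 * ‖x-y‖)
      have k5 := norm_nonneg z
      have k6 : (‖z‖ + 2 * ‖x - y‖) * m N (2 * ‖x - y‖) ≤ (4 * ‖x - y‖) * m N ‖x - y‖ := by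
        apply mul_le_mul _ k2 k4.le (by positivity)
        linarith
      nlinarith
    have h4 := h3 x (h.trans h2)
    have h5 := h3 y h2
    have := norm_sub_le (phi N x) (phi N y)
    linarith

lemma phi_holder' {N : ℝ} (hN : 1 ≤ N) (x y : E) :
    ‖phi N x - phi N y‖ ≤ 4 * (‖x - y‖ + ‖x - y‖ ^ (3/4 : ℝ)) := by
  refine (phi_holder hN x y).trans ?_
  have h0 := norm_nonneg (x - y)
  rcases h0.eq_or_lt with h | h
  · rw [← h]; 
    have : (0:ℝ) ≤ 0 ^ (3/4 : ℝ) := Real.rpow_nonneg le_rfl _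
    nlinarith
  · rcases le_total ‖x - y‖ 1 with h1 | h1
    · have h2 := m_holder hN h h1
      have h3 : √(√‖x - y‖) = ‖x - y‖ ^ (1/4 : ℝ) := by
        rw [Real.sqrt_eq_rpow, Real.sqrt_eq_rpow, ← Real.rpow_mul h0]; norm_num
      rw [h3] at h2
      have h4 : ‖x - y‖ = ‖x - y‖ ^ (1/4 : ℝ) * ‖x - y‖ ^ (3/4 : ℝ) := by
        rw [← Real.rpow_add h]; norm_num
      have h5 : 0 ≤ ‖x - y‖ ^ (3/4 : ℝ) := Real.rpow_nonneg h0 _
      have h6 : m N ‖x - y‖ * ‖x - y‖ ≤ ‖x - y‖ ^ (3/4 : ℝ) := by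
        calc m N ‖x - y‖ * ‖x - y‖ = m N ‖x - y‖ * (‖x - y‖ ^ (1/4 : ℝ) * ‖x - y‖ ^ (3/4 : ℝ)) := by
              rw [← h4]
          _ = (‖x - y‖ ^ (1/4 : ℝ) * m N ‖x - y‖) * ‖x - y‖ ^ (3/4 : ℝ) := by ring
          _ ≤ 1 * ‖x - y‖ ^ (3/4 : ℝ) := by gcongr
          _ = _ := one_mul _
      linarith
    · have h2 : m N ‖x - y‖ = 1 := by
        apply m_outer hN
        refine le_trans ?_ h1
        rw [div_le_one (by positivity)]
        nlinarith
      rw [h2]
      have h5 : 0 ≤ ‖x - y‖ ^ (3/4 : ℝ) := Real.rpow_nonneg h0 _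
      linarith

/-! ### the global map -/

def NN (j : ℕ) : ℝ := 2 * ((j:ℝ) + 1)

lemma one_le_NN (j : ℕ) : 1 ≤ NN j := by
  unfold NN
  have : (0:ℝ) ≤ j := Nat.cast_nonneg j
  linarith

lemma NN_pos (j : ℕ) : 0 < NN j := lt_of_lt_of_le one_pos (one_le_NN j)

def e0 : E := EuclideanSpace.single 0 1

lemma norm_e0 : ‖e0‖ = 1 := by
  unfold e0
  simp

def cen (j : ℕ) : E := (1/((j:ℝ)+1)) • e0

def inB (j : ℕ) (x : E) : Prop := ‖x - cen j‖ < 1/(NN j)^2

def F (j : ℕ) (x : E) : E := cen j + phi (NN j) (x - cen j)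

lemma norm_cen_sub (i j : ℕ) : ‖cen i - cen j‖ = |1/((i:ℝ)+1) - 1/((j:ℝ)+1)| := by
  unfold cen
  rw [← sub_smul, norm_smul, norm_e0, mul_one, Real.norm_eq_abs]

lemma norm_cen (j : ℕ) : ‖cen j‖ ≤ 1 := by
  unfold cen
  rw [norm_smul, norm_e0, mul_one, Real.norm_eq_abs]
  have : (0:ℝ) ≤ j := Nat.cast_nonneg j
  rw [abs_of_nonneg (by positivity), div_le_one (by positivity)]
  linarith

lemma cen_sep_aux {i j : ℕ} (h : i < j) : 1/(NN i)^2 + 1/(NN j)^2 ≤ ‖cen i - cen j‖ := by
  rw [norm_cen_sub]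
  refine le_trans ?_ (le_abs_self _)
  unfold NN
  have h0 : (0:ℝ) ≤ i := Nat.cast_nonneg i
  have h1 : (i:ℝ) + 1 ≤ j := by exact_mod_cast h
  obtain ⟨d, hd⟩ : ∃ d : ℝ, (j:ℝ) + 1 = (i:ℝ) + 1 + d := ⟨(j:ℝ) - i, by ring⟩
  have hd1 : 1 ≤ d := by linarith
  rw [hd]
  have ha : 1 ≤ (i:ℝ) + 1 := by linarith
  generalize (i:ℝ) + 1 = a at *
  have hb : 0 < a + d := by linarith
  have ha0 : 0 < a := by linarith
  rw [div_add_div _ _ (by positivity) (by positivity), div_sub_div _ _ ha0.ne' hb.ne',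
    div_le_div_iff₀ (by positivity) (by positivity)]
  have h2 : a^2 + (a+d)^2 ≤ 4 * a * (a+d) * d := by
    nlinarith [mul_nonneg (sub_nonneg.mpr ha) (sub_nonneg.mpr hd1), mul_pos ha0 hb, mul_nonneg (mul_nonneg ha0.le ha0.le) (sub_nonneg.mpr hd1), mul_nonneg (sub_nonneg.mpr ha) (mul_nonneg (by linarith : 0 ≤ d) (by linarith : 0 ≤ d))]
  have h3 : 0 < a * (a+d) := by positivity
  nlinarith [mul_le_mul_of_nonneg_left h2 h3.le]

lemma cen_sep {i j : ℕ} (h : i ≠ j) : 1/(NN i)^2 + 1/(NN j)^2 ≤ ‖cen i - cen j‖ := by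
  rcases lt_or_gt_of_ne h with h | h
  · exact cen_sep_aux h
  · rw [norm_sub_rev, add_comm]; exact cen_sep_aux h

lemma inB_unique {i j : ℕ} {x : E} (hi : inB i x) (hj : inB j x) : i = j := by
  by_contra h
  have h1 := cen_sep h
  unfold inB at hi hj
  have h2 : ‖cen i - cen j‖ ≤ ‖x - cen i‖ + ‖x - cen j‖ := by
    have := norm_sub_le (x - cen j) (x - cen i)
    rw [sub_sub_sub_cancel_left] at this
    linarith
  linarith

open Classical in
/-- the counterexample -/
def f (x : E) : E := if h : ∃ j, inB j x then F h.choose x else x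

lemma f_in {j : ℕ} {x : E} (h : inB j x) : f x = F j x := by
  have h' : ∃ j, inB j x := ⟨j, h⟩
  unfold f
  rw [dif_pos h']
  rw [inB_unique h'.choose_spec h]

lemma f_out {x : E} (h : ∀ j, ¬ inB j x) : f x = x := by
  unfold f
  rw [dif_neg]
  push Not
  exact h

lemma F_out {j : ℕ} {x : E} (h : ¬ inB j x) : F j x = x := by
  unfold F inB at *
  rw [phi_outer (one_le_NN j) (not_lt.mp h)]
  abel

lemma F_mem {j : ℕ} {x : E} (h : inB j x) : inB j (F j x) := by
  unfold F inB at *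
  rw [add_sub_cancel_left]
  have := norm_phi_le (one_le_NN j) h.le
  linarith

lemma F_upper (j : ℕ) {x y : E} {s : ℝ} (h : s ≤ ‖x - cen j‖) (h' : s ≤ ‖y - cen j‖) :
    ‖F j x - F j y‖ ≤ m (NN j) s * ‖x - y‖ := by
  unfold F
  rw [add_sub_add_left_eq_sub]
  have := phi_upper (one_le_NN j) h h'
  rwa [sub_sub_sub_cancel_right] at this

lemma F_lower (j : ℕ) {x y : E} {t : ℝ} (h : ‖x - cen j‖ ≤ t) (h' : ‖y - cen j‖ ≤ t) :
    1/2 * m (NN j) t * ‖x - y‖ ≤ ‖F j x - F j y‖ := by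
  unfold F
  rw [add_sub_add_left_eq_sub]
  have := phi_lower (one_le_NN j) h h'
  rwa [sub_sub_sub_cancel_right] at this

lemma F_lower' (j : ℕ) (x y : E) : 1/2 * ‖x - y‖ ≤ ‖F j x - F j y‖ := by
  unfold F
  rw [add_sub_add_left_eq_sub]
  have := phi_lower' (one_le_NN j) (x - cen j) (y - cen j)
  rwa [sub_sub_sub_cancel_right] at this

lemma F_disp {j : ℕ} {x : E} (h : inB j x) : ‖F j x - x‖ ≤ 1/(NN j)^2 - ‖x - cen j‖ := by
  unfold F inB at *
  have := phi_disp (one_le_NN j) h.le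
  rwa [show cen j + phi (NN j) (x - cen j) - x = phi (NN j) (x - cen j) - (x - cen j) by abel]

lemma F_holder (j : ℕ) (x y : E) :
    ‖F j x - F j y‖ ≤ 4 * (‖x - y‖ + ‖x - y‖ ^ (3/4 : ℝ)) := by
  unfold F
  rw [add_sub_add_left_eq_sub]
  have := phi_holder' (one_le_NN j) (x - cen j) (y - cen j)
  rwa [sub_sub_sub_cancel_right] at this

lemma f_disp {x y : E} (h : ∀ j, ¬ (inB j x ∧ inB j y)) : ‖f x - x‖ ≤ ‖x - y‖ := by
  by_cases hx : ∃ j, inB j x
  · obtain ⟨j, hj⟩ := hx
    rw [f_in hj]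
    refine (F_disp hj).trans ?_
    have hy : ¬ inB j y := fun hy => h j ⟨hj, hy⟩
    unfold inB at hy
    have : ‖y - cen j‖ ≤ ‖x - y‖ + ‖x - cen j‖ := by
      have := norm_sub_le (x - cen j) (x - y)
      rw [sub_sub_sub_cancel_left] at this
      linarith
    linarith
  · push Not at hx
    rw [f_out hx, sub_self, norm_zero]
    exact norm_nonneg _

lemma f_lip {x y : E} (h : ∀ j, ¬ (inB j x ∧ inB j y)) : ‖f x - f y‖ ≤ 3 * ‖x - y‖ := by
  have h1 := f_disp h
  have h2 := f_disp (x := y) (y := x) (fun j hj => h j ⟨hj.2, hj.1⟩)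
  rw [norm_sub_rev y x] at h2
  have h3 : f x - f y = (f x - x) + (x - y) - (f y - y) := by abel
  rw [h3]
  have h4 := norm_sub_le ((f x - x) + (x - y)) (f y - y)
  have h5 := norm_add_le (f x - x) (x - y)
  linarith

lemma f_holder (x y : E) : ‖f x - f y‖ ≤ 4 * (‖x - y‖ + ‖x - y‖ ^ (3/4 : ℝ)) := by
  by_cases h : ∃ j, inB j x ∧ inB j y
  · obtain ⟨j, hx, hy⟩ := h
    rw [f_in hx, f_in hy]
    exact F_holder j x y
  · push Not at h
    have h1 := f_lip (x := x) (y := y) (fun j hj => h j hj.1 hj.2)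
    have h5 : 0 ≤ ‖x - y‖ ^ (3/4 : ℝ) := Real.rpow_nonneg (norm_nonneg _) _
    have := norm_nonneg (x - y)
    linarith

lemma f_holder_dist (x y : E) : dist (f x) (f y) ≤ 4 * (dist x y + dist x y ^ (3/4 : ℝ)) := by
  rw [dist_eq_norm, dist_eq_norm]
  exact f_holder x y

lemma f_cont : Continuous f := by
  rw [Metric.continuous_iff']
  intro a ε hε
  have h1 : Tendsto (fun x : E => 4 * (dist x a + dist x a ^ (3/4 : ℝ))) (𝓝 a) (𝓝 (4 * (dist a a + dist a a ^ (3/4 : ℝ)))) := by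
    have : Continuous (fun x : E => 4 * (dist x a + dist x a ^ (3/4 : ℝ))) := by
      apply Continuous.mul continuous_const
      apply Continuous.add (by fun_prop)
      apply Continuous.rpow_const (by fun_prop)
      intro x; right; norm_num
    exact this.tendsto a
  rw [dist_self, Real.zero_rpow (by norm_num), add_zero, mul_zero] at h1
  filter_upwards [h1.eventually (gt_mem_nhds hε)] with x hx
  exact (f_holder_dist x a).trans_lt hx

lemma f_inj : Function.Injective f := by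
  have key : ∀ (j : ℕ) (x y : E), inB j x → f x = f y → inB j y := by
    intro j x y hx hxy
    have h1 : inB j (f y) := by rw [← hxy, f_in hx]; exact F_mem hx
    by_cases hy : ∃ i, inB i y
    · obtain ⟨i, hi⟩ := hy
      have h2 : inB i (f y) := by rw [f_in hi]; exact F_mem hi
      rw [inB_unique h1 h2]; exact hi
    · push Not at hy
      rw [f_out hy] at h1
      exact h1
  intro x y hxy
  by_cases hx : ∃ j, inB j x
  · obtain ⟨j, hj⟩ := hx
    have hy := key j x y hj hxy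
    rw [f_in hj, f_in hy] at hxy
    have := F_lower' j x y
    rw [hxy, sub_self, norm_zero] at this
    have h2 : ‖x - y‖ = 0 := le_antisymm (by linarith) (norm_nonneg _)
    exact sub_eq_zero.mp (norm_eq_zero.mp h2)
  · push Not at hx
    have hy : ∀ j, ¬ inB j y := fun j hj => hx j (key j y x hj hxy.symm)
    rwa [f_out hx, f_out hy] at hxy

lemma f_dil (x : E) : ∀ᶠ r in 𝓝[>] (0:ℝ), ∀ y z : E, dist y x = r → dist z x = r →
    dist (f y) (f x) ≤ 8 * dist (f z) (f x) := by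
  by_cases hx : ∃ j, inB j x
  · obtain ⟨j, hj⟩ := hx
    set s := ‖x - cen j‖ with hs
    have hm := m_pos (one_le_NN j) s
    have hc := m_cont (one_le_NN j)
    have h1 : ∀ᶠ r in 𝓝 (0:ℝ), m (NN j) (s - r) < 2 * m (NN j) s := by
      have : Tendsto (fun r : ℝ => m (NN j) (s - r)) (𝓝 0) (𝓝 (m (NN j) (s - 0))) := by
        have : Continuous (fun r : ℝ => m (NN j) (s - r)) := hc.comp (by fun_prop)
        exact this.tendsto 0
      rw [sub_zero] at this
      exact this.eventually (gt_mem_nhds (by linarith))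
    have h2 : ∀ᶠ r in 𝓝 (0:ℝ), 1/2 * m (NN j) s < m (NN j) (s + r) := by
      have : Tendsto (fun r : ℝ => m (NN j) (s + r)) (𝓝 0) (𝓝 (m (NN j) (s + 0))) := by
        have : Continuous (fun r : ℝ => m (NN j) (s + r)) := hc.comp (by fun_prop)
        exact this.tendsto 0
      rw [add_zero] at this
      exact this.eventually (lt_mem_nhds (by linarith))
    have h3 : ∀ᶠ r in 𝓝 (0:ℝ), r < 1/(NN j)^2 - s := by
      apply gt_mem_nhds
      unfold inB at hj
      linarith
    filter_upwards [nhdsWithin_le_nhds h1, nhdsWithin_le_nhds h2, nhdsWithin_le_nhds h3,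
      self_mem_nhdsWithin] with r hr1 hr2 hr3 hr0 y z hy hz
    have hr0 : 0 < r := hr0
    rw [dist_eq_norm] at hy hz ⊢
    rw [dist_eq_norm]
    have gen : ∀ u : E, ‖u - x‖ = r → s - r ≤ ‖u - cen j‖ ∧ ‖u - cen j‖ ≤ s + r := by
      intro u hu
      constructor
      · have := norm_sub_le (u - cen j) (u - x)
        rw [sub_sub_sub_cancel_left, hu] at this
        linarith
      · have := norm_add_le (u - x) (x - cen j)
        rw [sub_add_sub_cancel, hu] at this
        linarith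
    obtain ⟨hy1, hy2⟩ := gen y hy
    obtain ⟨hz1, hz2⟩ := gen z hz
    have hyB : inB j y := by unfold inB; linarith
    have hzB : inB j z := by unfold inB; linarith
    rw [f_in hj, f_in hyB, f_in hzB]
    have u1 := F_upper j (x := y) (y := x) hy1 (by linarith : s - r ≤ ‖x - cen j‖)
    have u2 := F_lower j (x := z) (y := x) hz2 (by linarith : ‖x - cen j‖ ≤ s + r)
    rw [hy] at u1
    rw [hz] at u2
    nlinarith
  · push Not at hx
    filter_upwards [self_mem_nhdsWithin] with r hr y z hy hz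
    have hr0 : 0 < r := hr
    have hup : ‖f y - f x‖ ≤ 2 * ‖y - x‖ := by
      have h1 := f_disp (x := y) (y := x) (fun j hj => hx j hj.2)
      rw [f_out hx]
      have h2 := norm_add_le (f y - y) (y - x)
      rw [sub_add_sub_cancel] at h2
      linarith
    have hlow : 1/2 * ‖z - x‖ ≤ ‖f z - f x‖ := by
      by_cases hz' : ∃ j, inB j z
      · obtain ⟨j, hj⟩ := hz'
        have := F_lower' j z x
        rw [F_out (hx j), ← f_in hj] at this
        rwa [f_out hx]
      · push Not at hz'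
        rw [f_out hx, f_out hz']
        linarith [norm_nonneg (z - x)]
    rw [dist_eq_norm] at hy hz ⊢
    rw [dist_eq_norm]
    rw [hy] at hup
    rw [hz] at hlow
    linarith

/-! ### weak derivatives -/

lemma f_inner {j : ℕ} {x : E} (h : x ∈ ball (cen j) (1/(NN j)^4)) :
    f x = cen j + (NN j) • (x - cen j) := by
  rw [mem_ball, dist_eq_norm] at h
  have hN := one_le_NN j
  have h1 : inB j x := by
    unfold inB
    refine h.trans_le ?_
    apply one_div_le_one_div_of_le (by positivity)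
    apply pow_le_pow_right₀ hN (by norm_num)
  rw [f_in h1]
  unfold F
  rw [phi_inner hN h.le]

lemma weak_eq {g : E → (E →L[ℝ] E)} (hg : LocallyIntegrable g)
    (hw : ∀ φ : E → ℝ, ContDiff ℝ (⊤:ℕ∞) φ → HasCompactSupport φ → 
      ∀ v, ∫ x, (fderiv ℝ φ x v) • f x = - ∫ x, φ x • (g x v)) (j : ℕ) :
    ∀ᵐ x ∂(volume : Measure E), x ∈ ball (cen j) (1/(NN j)^4) →
      g x - (NN j) • ContinuousLinearMap.id ℝ E = 0 := by
  have hconst : LocallyIntegrable (fun _ : E => (NN j) • ContinuousLinearMap.id ℝ E) :=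
    continuous_const.locallyIntegrable
  have hh : LocallyIntegrable (fun x => g x - (NN j) • ContinuousLinearMap.id ℝ E) := hg.sub hconst
  apply isOpen_ball.ae_eq_zero_of_integral_contDiff_smul_eq_zero (hh.locallyIntegrableOn _)
  intro φ hφ hφc hφs
  have hint : Integrable (fun x => φ x • (g x - (NN j) • ContinuousLinearMap.id ℝ E)) :=
    hh.integrable_smul_left_of_hasCompactSupport hφ.continuous hφc
  have hintg : Integrable (fun x => φ x • g x) :=
    hg.integrable_smul_left_of_hasCompactSupport hφ.continuous hφc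
  have hintc : Integrable (fun x => φ x • ((NN j) • ContinuousLinearMap.id ℝ E)) :=
    hconst.integrable_smul_left_of_hasCompactSupport hφ.continuous hφc
  ext1 v
  rw [ContinuousLinearMap.integral_apply hint]
  simp only [smul_apply, sub_apply,
    ContinuousLinearMap.id_apply, zero_apply]
  have h1 := hw φ hφ hφc v
  set A : E → E := fun x => cen j + (NN j) • (x - cen j) with hA
  have hAd : ∀ x, HasFDerivAt A ((NN j) • ContinuousLinearMap.id ℝ E) x := by
    intro x
    exact (((hasFDerivAt_id x).sub_const (cen j)).const_smul (NN j)).const_add (cen j)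
  have h2 : ∫ x, (fderiv ℝ φ x v) • f x = ∫ x, (fderiv ℝ φ x v) • A x := by
    congr 1
    ext1 x
    by_cases hx : x ∈ tsupport φ
    · rw [f_inner (hφs hx)]
    · have : fderiv ℝ φ x = 0 := by
        have h := support_fderiv_subset ℝ (f := φ)
        by_contra hne
        exact hx (h hne)
      rw [this]
      simp
  have hAc : Continuous A := by rw [hA]; fun_prop
  have hφd : Differentiable ℝ φ := hφ.differentiable (by simp)
  have hφ'c : Continuous (fun x => fderiv ℝ φ x v) := by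
    have := hφ.continuous_fderiv (by simp)
    fun_prop
  have hφ's : HasCompactSupport (fun x => fderiv ℝ φ x v) := by
    have := hφc.fderiv (𝕜 := ℝ)
    exact this.comp_left (g := fun L : E →L[ℝ] ℝ => L v) (by simp)
  have h3 : ∫ x, φ x • (fderiv ℝ A x v) = - ∫ x, (fderiv ℝ φ x v) • A x := by
    apply integral_smul_fderiv_eq_neg_fderiv_smul_of_integrable
    · exact (hφ'c.smul hAc).integrable_of_hasCompactSupport (hφ's.smul_right)
    · have : Continuous (fun x => φ x • fderiv ℝ A x v) := by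
        have e : (fun x => φ x • fderiv ℝ A x v) = fun x => φ x • ((NN j) • v) := by
          ext1 x
          rw [(hAd x).fderiv]
          simp
        rw [e]
        have := hφ.continuous
        fun_prop
      exact this.integrable_of_hasCompactSupport (hφc.smul_right)
    · exact (hφ.continuous.smul hAc).integrable_of_hasCompactSupport (hφc.smul_right)
    · intro x _; exact hφd x
    · intro x _; exact (hAd x).differentiableAt
  have h4 : ∫ x, φ x • (fderiv ℝ A x v) = ∫ x, φ x • ((NN j) • v) := by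
    congr 1
    ext1 x
    rw [(hAd x).fderiv]
    simp
  rw [h4, ← h2, h1, neg_neg] at h3
  have e1 : Integrable (fun x => φ x • (g x v)) := by
    have := hintg.apply_continuousLinearMap v
    simpa using this
  have e2 : Integrable (fun x => φ x • ((NN j) • v)) := by
    have := hintc.apply_continuousLinearMap v
    simpa using this
  simp only [smul_sub]
  rw [integral_sub e1 e2, h3, sub_self]

lemma lintegral_ball {g : E → (E →L[ℝ] E)} (j : ℕ)
    (h : ∀ᵐ x ∂(volume : Measure E), x ∈ ball (cen j) (1/(NN j)^4) →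
      g x - (NN j) • ContinuousLinearMap.id ℝ E = 0) :
    ∫⁻ x in ball (cen j) (1/(NN j)^4), ENNReal.ofReal ‖g x‖ ^ (7:ℝ) = 
      ENNReal.ofReal (Real.pi * (1 / NN j)) := by
  have h1 : ∫⁻ x in ball (cen j) (1/(NN j)^4), ENNReal.ofReal ‖g x‖ ^ (7:ℝ) = 
      ∫⁻ x in ball (cen j) (1/(NN j)^4), ENNReal.ofReal (NN j ^ 7) := by
    apply setLIntegral_congr_fun_ae measurableSet_ball
    filter_upwards [h] with x hx hxB
    have := sub_eq_zero.mp (hx hxB)
    rw [this, norm_smul, ContinuousLinearMap.norm_id, mul_one, Real.norm_of_nonneg (NN_pos j).le,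
      ENNReal.ofReal_rpow_of_nonneg (NN_pos j).le (by norm_num)]
    norm_num
  rw [h1, setLIntegral_const, EuclideanSpace.volume_ball_fin_two]
  have hN := NN_pos j
  rw [← ENNReal.ofReal_pow (by positivity), ← ENNReal.ofReal_mul (by positivity),
    ← ENNReal.ofReal_mul (by positivity)]
  congr 1
  field_simp


lemma small_disj : Pairwise (Function.onFun Disjoint fun j : ℕ => ball (cen j) (1/(NN j)^4)) := by
  intro i j hij
  rw [Function.onFun, Set.disjoint_left]
  intro x hi hj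
  have key : ∀ k : ℕ, x ∈ ball (cen k) (1/(NN k)^4) → inB k x := by
    intro k hk
    rw [mem_ball, dist_eq_norm] at hk
    have hN := one_le_NN k
    unfold inB
    refine hk.trans_le ?_
    apply one_div_le_one_div_of_le (by positivity)
    apply pow_le_pow_right₀ hN (by norm_num)
  exact hij (inB_unique (key i hi) (key j hj))

lemma small_sub (j : ℕ) : ball (cen j) (1/(NN j)^4) ⊆ closedBall 0 2 := by
  intro x hx
  rw [mem_ball] at hx
  rw [mem_closedBall]
  have h1 := norm_cen j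
  have h2 := dist_triangle x (cen j) 0
  rw [dist_zero_right (cen j)] at h2
  have h3 : 1/(NN j)^4 ≤ 1 := by
    have hN := one_le_NN j
    rw [div_le_one (by positivity)]
    exact one_le_pow₀ hN
  linarith

lemma lintegral_top {g : E → (E →L[ℝ] E)}
    (h : ∀ j : ℕ, ∀ᵐ x ∂(volume : Measure E), x ∈ ball (cen j) (1/(NN j)^4) →
      g x - (NN j) • ContinuousLinearMap.id ℝ E = 0) :
    ∫⁻ x in closedBall (0:E) 2, ENNReal.ofReal ‖g x‖ ^ (7:ℝ) = ⊤ := by
  have h1 : ∫⁻ x in ⋃ j : ℕ, ball (cen j) (1/(NN j)^4), ENNReal.ofReal ‖g x‖ ^ (7:ℝ) ≤ 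
      ∫⁻ x in closedBall (0:E) 2, ENNReal.ofReal ‖g x‖ ^ (7:ℝ) :=
    lintegral_mono_set (Set.iUnion_subset small_sub)
  rw [lintegral_iUnion (fun _ => measurableSet_ball) small_disj] at h1
  simp_rw [fun j => lintegral_ball j (h j)] at h1
  have h2 : ∑' j : ℕ, ENNReal.ofReal (Real.pi * (1 / NN j)) = ⊤ := by
    by_contra hne
    have h3 := ENNReal.summable_toReal hne
    have h4 : ∀ j : ℕ, (ENNReal.ofReal (Real.pi * (1 / NN j))).toReal = (Real.pi/2) * (1/((j:ℝ)+1)) := by
      intro j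
      have := NN_pos j
      rw [ENNReal.toReal_ofReal (by positivity)]
      unfold NN
      field_simp
    simp_rw [h4] at h3
    rw [summable_mul_left_iff (by positivity)] at h3
    have h5 := Real.not_summable_one_div_natCast
    rw [← summable_nat_add_iff 1] at h5
    apply h5
    simpa using h3
  rw [h2] at h1
  exact top_le_iff.mp h1

end

end Pool.Agent.H846R2.QC
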