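import Mathlib

set_option autoImplicit false
open Finset

namespace Pool.Agent.H846R2.WG

/-- Fejer kernel identity on the unit circle. -/
lemma fejer_id (ζ : ℂ) (hζ : ‖ζ‖ = 1) (J : ℕ) :
    (J + 1 : ℝ) + 2 * (∑ i ∈ range J, ((J:ℝ) - i) * (ζ ^ (i+1)).re)
      = Complex.normSq (∑ a ∈ range (J+1), ζ ^ a) := by
  have hc : ζ * (starRingEnd ℂ) ζ = 1 := by
    rw [Complex.mul_conj, Complex.normSq_eq_norm_sq, hζ]; norm_num
  induction J with
  | zero => simp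
  | succ J ih =>
    rw [Finset.sum_range_succ (fun a => ζ ^ a) (J+1), Complex.normSq_add, ← ih]
    have h1 : Complex.normSq (ζ ^ (J+1)) = 1 := by
      rw [Complex.normSq_eq_norm_sq, norm_pow, hζ]; norm_num
    have h2 : ((∑ a ∈ range (J+1), ζ ^ a) * (starRingEnd ℂ) (ζ ^ (J+1))).re
        = ∑ i ∈ range (J+1), (ζ ^ (i+1)).re := by
      rw [Finset.sum_mul, Complex.re_sum, ← Finset.sum_range_reflect]
      apply Finset.sum_congr rfl
      intro i hi
      have hi' : i < J + 1 := Finset.mem_range.mp hi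
      have e1 : J + 1 - 1 - i = J - i := by omega
      rw [e1]
      have e2 : J + 1 = (J - i) + (i + 1) := by omega
      have e3 : ζ ^ (J - i) * (starRingEnd ℂ) (ζ ^ (J+1)) = (starRingEnd ℂ) (ζ ^ (i+1)) := by
        rw [e2, pow_add ζ (J-i) (i+1), map_mul, ← mul_assoc, map_pow (starRingEnd ℂ) ζ (J-i),
          ← mul_pow, hc, one_pow, one_mul]
      rw [e3, Complex.conj_re]
    rw [h1, h2]
    rw [Finset.sum_range_succ (fun i => (((J+1:ℕ):ℝ) - i) * (ζ ^ (i+1)).re) J,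
      Finset.sum_range_succ (fun i => (ζ ^ (i+1)).re) J]
    have h3 : ∑ i ∈ range J, (((J+1:ℕ):ℝ) - i) * (ζ ^ (i+1)).re
        = ∑ i ∈ range J, ((J:ℝ) - i) * (ζ ^ (i+1)).re + ∑ i ∈ range J, (ζ ^ (i+1)).re := by
      rw [← Finset.sum_add_distrib]
      apply Finset.sum_congr rfl
      intro i _
      push_cast
      ring
    rw [h3]
    push_cast
    ring

lemma fejer_re (ζ : ℂ) (hζ : ‖ζ‖ ≤ 1) (J : ℕ) :
    -(1/2 : ℝ) ≤ (∑ i ∈ range J, ((((J:ℝ) - i)/(J+1) : ℝ) : ℂ) * ζ ^ (i+1)).re := by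
  set F : ℂ → ℂ := fun ζ => ∑ i ∈ range J, ((((J:ℝ) - i)/(J+1) : ℝ) : ℂ) * ζ ^ (i+1) with hF
  have hJ : (0:ℝ) < J + 1 := by positivity
  have hcirc : ∀ w : ℂ, ‖w‖ = 1 → -(1/2:ℝ) ≤ (F w).re := by
    intro w hw
    have h := fejer_id w hw J
    have h0 : 0 ≤ Complex.normSq (∑ a ∈ range (J+1), w ^ a) := Complex.normSq_nonneg _
    rw [← h] at h0
    have e : (F w).re = (∑ i ∈ range J, ((J:ℝ) - i) * (w ^ (i+1)).re) / (J+1) := by
      rw [hF]
      simp only [Complex.re_sum, Finset.sum_div]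
      apply Finset.sum_congr rfl
      intro i _
      rw [Complex.re_ofReal_mul]
      ring
    rw [e, le_div_iff₀ hJ]
    linarith
  have hdiff : Differentiable ℂ (fun ζ => Complex.exp (-(F ζ))) := by
    apply Differentiable.cexp
    apply Differentiable.neg
    rw [hF]
    fun_prop
  have key : ‖Complex.exp (-(F ζ))‖ ≤ Real.exp (1/2) := by
    apply Complex.norm_le_of_forall_mem_frontier_norm_le (U := Metric.ball (0:ℂ) 1)
      Metric.isBounded_ball (f := fun ζ => Complex.exp (-(F ζ)))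
    · exact hdiff.diffContOnCl
    · intro z hz
      rw [frontier_ball (0:ℂ) one_ne_zero, mem_sphere_zero_iff_norm] at hz
      rw [Complex.norm_exp, Complex.neg_re]
      apply Real.exp_le_exp.mpr
      have := hcirc z hz
      linarith
    · rw [closure_ball (0:ℂ) one_ne_zero, mem_closedBall_zero_iff]
      exact hζ
  rw [Complex.norm_exp, Complex.neg_re] at key
  have := Real.exp_le_exp.mp key
  linarith

/-- divergence of the weighted sums -/
lemma exists_J (N : ℕ) : ∃ J : ℕ, 1 ≤ ∑ i ∈ range J, (((J:ℝ) - i)/(J+1)) / (1 + (i+1)*N) := by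
  have h := Real.tendsto_sum_range_one_div_nat_succ_atTop
  obtain ⟨R, hR⟩ := (h.eventually_ge_atTop (2 * ((N:ℝ)+1))).exists
  refine ⟨2*R, ?_⟩
  have hN : (0:ℝ) < (N:ℝ) + 1 := by positivity
  have h1 : ∑ i ∈ range R, (1/2:ℝ) * ((1/((N:ℝ)+1)) * (1/((i:ℝ)+1)))
      ≤ ∑ i ∈ range R, ((((2*R:ℕ):ℝ) - i)/(((2*R:ℕ):ℝ)+1)) / (1 + ((i:ℝ)+1)*N) := by
    apply Finset.sum_le_sum
    intro i hi
    have hi' : i < R := Finset.mem_range.mp hi
    have hiR : (i:ℝ) + 1 ≤ R := by exact_mod_cast hi'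
    have hi0 : (0:ℝ) ≤ i := Nat.cast_nonneg i
    have a1 : (1/2:ℝ) ≤ (((2*R:ℕ):ℝ) - i)/(((2*R:ℕ):ℝ)+1) := by
      rw [div_le_div_iff₀ (by norm_num) (by positivity)]
      push_cast
      linarith
    have a2 : (1/((N:ℝ)+1)) * (1/((i:ℝ)+1)) ≤ 1 / (1 + ((i:ℝ)+1)*N) := by
      rw [one_div_mul_one_div]
      apply one_div_le_one_div_of_le
      · positivity
      · nlinarith [Nat.cast_nonneg (α := ℝ) N]
    calc (1/2:ℝ) * ((1/((N:ℝ)+1)) * (1/((i:ℝ)+1)))
        ≤ ((((2*R:ℕ):ℝ) - i)/(((2*R:ℕ):ℝ)+1)) * (1 / (1 + ((i:ℝ)+1)*N)) := by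
          apply mul_le_mul a1 a2 (by positivity)
          exact le_trans (by norm_num) a1
      _ = _ := by rw [mul_one_div]
  have h2 : ∑ i ∈ range R, ((((2*R:ℕ):ℝ) - i)/(((2*R:ℕ):ℝ)+1)) / (1 + ((i:ℝ)+1)*N)
      ≤ ∑ i ∈ range (2*R), ((((2*R:ℕ):ℝ) - i)/(((2*R:ℕ):ℝ)+1)) / (1 + ((i:ℝ)+1)*N) := by
    apply Finset.sum_le_sum_of_subset_of_nonneg
    · intro x hx
      simp only [Finset.mem_range] at *
      omega
    · intro i hi _
      have hi' : i < 2*R := Finset.mem_range.mp hi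
      have : (i:ℝ) ≤ ((2*R:ℕ):ℝ) := by exact_mod_cast hi'.le
      apply div_nonneg
      · apply div_nonneg
        · linarith
        · positivity
      · positivity
  have h3 : ∑ i ∈ range R, (1/2:ℝ) * ((1/((N:ℝ)+1)) * (1/((i:ℝ)+1)))
      = (1/2) * (1/((N:ℝ)+1)) * ∑ i ∈ range R, 1/((i:ℝ)+1) := by
    rw [Finset.mul_sum]
    apply Finset.sum_congr rfl
    intro i _
    ring
  have h4 : 1 ≤ (1/2) * (1/((N:ℝ)+1)) * ∑ i ∈ range R, 1/((i:ℝ)+1) := by
    calc (1:ℝ) = (1/2) * (1/((N:ℝ)+1)) * (2 * ((N:ℝ)+1)) := by field_simp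
      _ ≤ _ := by
        apply mul_le_mul_of_nonneg_left hR
        positivity
  exact h4.trans (h3 ▸ (h1.trans h2))

end Pool.Agent.H846R2.WG
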