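import Pool.Agent.H846R2.WGPow

set_option autoImplicit false
open Finset

namespace Pool.Agent.H846R2.WG

/-- polynomial function with coefficients `fK K` -/
noncomputable def FK (K : ℕ) (z : ℂ) : ℂ :=
  ∑ n ∈ range (MM K), ((aa K n / ((n:ℝ)+1) : ℝ) : ℂ) * z^(n+1)

lemma hasDerivAt_FK (K : ℕ) (z : ℂ) :
    HasDerivAt (FK K) (∑ n ∈ range (MM K), ((aa K n : ℝ):ℂ) * z^n) z := by
  unfold FK
  have : ∀ n ∈ range (MM K), HasDerivAt (fun z : ℂ => ((aa K n / ((n:ℝ)+1) : ℝ) : ℂ) * z^(n+1))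
      (((aa K n : ℝ):ℂ) * z^n) z := by
    intro n _
    have h := (hasDerivAt_pow (n+1) z).const_mul (((aa K n / ((n:ℝ)+1) : ℝ) : ℂ))
    refine h.congr_deriv ?_
    have : ((n:ℂ) + 1) ≠ 0 := Nat.cast_add_one_ne_zero n
    rw [Nat.add_sub_cancel]
    push_cast
    field_simp
  exact HasDerivAt.fun_sum this

lemma FK_lower (K : ℕ) (z w : ℂ) (hz : ‖z‖ ≤ 1) (hw : ‖w‖ ≤ 1) :
    (1/2) * ‖z - w‖ ≤ ‖FK K z - FK K w‖ := by
  set d : ℂ := z - w with hd
  set φ : ℝ → ℝ := fun t => ((starRingEnd ℂ) d * FK K (w + t * d)).re with hφ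
  have hder : ∀ t : ℝ, HasDerivAt φ (((starRingEnd ℂ) d *
      ((∑ n ∈ range (MM K), ((aa K n : ℝ):ℂ) * (w + t * d)^n) * d)).re) t := by
    intro t
    have h1 : HasDerivAt (fun t : ℝ => w + (t:ℂ) * d) d t := by
      have h0 : HasDerivAt (fun s : ℂ => w + s * d) (1 * d) (t:ℂ) :=
        ((hasDerivAt_id (t:ℂ)).mul_const d).const_add w
      rw [one_mul] at h0
      exact h0.comp_ofReal
    have h2 := (hasDerivAt_FK K (w + t * d)).comp t h1
    have h3 := h2.const_mul ((starRingEnd ℂ) d)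
    exact Complex.reCLM.hasFDerivAt.comp_hasDerivAt t h3
  have hlow : ∀ t ∈ interior (Set.Icc (0:ℝ) 1), (1/2) * ‖d‖^2 ≤ deriv φ t := by
    intro t ht
    rw [interior_Icc] at ht
    rw [(hder t).deriv]
    have e : (starRingEnd ℂ) d * ((∑ n ∈ range (MM K), ((aa K n : ℝ):ℂ) * (w + t * d)^n) * d)
        = ((‖d‖^2 : ℝ) : ℂ) * (∑ n ∈ range (MM K), ((aa K n : ℝ):ℂ) * (w + t * d)^n) := by
      have : ((‖d‖^2 : ℝ) : ℂ) = d * (starRingEnd ℂ) d := by
        rw [Complex.mul_conj, Complex.normSq_eq_norm_sq]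
      rw [this]; ring
    rw [e, Complex.re_ofReal_mul]
    have hn : ‖w + t * d‖ ≤ 1 := by
      have : w + t * d = ((1 - t : ℝ) : ℂ) * w + (t : ℂ) * z := by
        rw [hd]; push_cast; ring
      rw [this]
      refine (norm_add_le _ _).trans ?_
      rw [norm_mul, norm_mul, Complex.norm_real, Complex.norm_real, Real.norm_eq_abs,
        Real.norm_eq_abs, abs_of_nonneg ht.1.le, abs_of_nonneg (by linarith [ht.2] : 0 ≤ 1 - t)]
      have h1 : (1 - t) * ‖w‖ ≤ (1 - t) * 1 := mul_le_mul_of_nonneg_left hw (by linarith [ht.2])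
      have h2 : t * ‖z‖ ≤ t * 1 := mul_le_mul_of_nonneg_left hz ht.1.le
      linarith
    have h1 := (inv K).re _ hn
    have h2 : (0:ℝ) < (1/2)^K := by positivity
    have h3 : 0 ≤ ‖d‖^2 := by positivity
    calc (1/2) * ‖d‖^2 = ‖d‖^2 * (1/2) := by ring
      _ ≤ _ := mul_le_mul_of_nonneg_left (by linarith) h3
  have hdiff : Differentiable ℝ φ := fun t => (hder t).differentiableAt
  have h := (convex_Icc (0:ℝ) 1).mul_sub_le_image_sub_of_le_deriv hdiff.continuous.continuousOn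
    hdiff.differentiableOn hlow 0 (by simp) 1 (by simp) zero_le_one
  have e1 : φ 1 - φ 0 = ((starRingEnd ℂ) d * (FK K z - FK K w)).re := by
    rw [hφ]
    simp only [Complex.ofReal_one, Complex.ofReal_zero, one_mul, zero_mul, add_zero]
    rw [← Complex.sub_re, ← mul_sub, hd, add_sub_cancel]
  rw [e1] at h
  have h4 : ((starRingEnd ℂ) d * (FK K z - FK K w)).re ≤ ‖d‖ * ‖FK K z - FK K w‖ := by
    refine (Complex.re_le_norm _).trans ?_
    rw [norm_mul, RCLike.norm_conj]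
  rcases (norm_nonneg d).eq_or_lt with h0 | h0
  · rw [← h0]; simp
  · have h5 : ‖d‖ * ((1/2) * ‖d‖) ≤ ‖d‖ * ‖FK K z - FK K w‖ := by
      calc ‖d‖ * ((1/2) * ‖d‖) = 1/2 * ‖d‖^2 * (1 - 0) := by ring
        _ ≤ _ := h.trans h4
    exact le_of_mul_le_mul_left h5 h0

lemma summable_of_SS (g : PowerSeries ℂ) (C : ℝ) (h : ∀ R, SS R g ≤ C) :
    Summable (fun n : ℕ => ‖PowerSeries.coeff n g‖) :=
  summable_of_sum_range_le (fun _ => norm_nonneg _) h

lemma tsum_le_of_SS (g : PowerSeries ℂ) (C : ℝ) (h : ∀ R, SS R g ≤ C) :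
    ∑' n : ℕ, ‖PowerSeries.coeff n g‖ ≤ C :=
  Real.tsum_le_of_sum_range_le (fun _ => norm_nonneg _) h

lemma SS_le_tsum (g : PowerSeries ℂ) (h : Summable (fun n : ℕ => ‖PowerSeries.coeff n g‖)) (R : ℕ) :
    SS R g ≤ ∑' n : ℕ, ‖PowerSeries.coeff n g‖ :=
  h.sum_le_tsum _ (fun _ _ => norm_nonneg _)

lemma norm_mul_pow_le (g : PowerSeries ℂ) (z : ℂ) (hz : ‖z‖ ≤ 1) (n : ℕ) :
    ‖PowerSeries.coeff n g * z^n‖ ≤ ‖PowerSeries.coeff n g‖ := by
  rw [norm_mul, norm_pow]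
  exact mul_le_of_le_one_right (norm_nonneg _) (pow_le_one₀ (norm_nonneg _) hz)

lemma summable_eval (g : PowerSeries ℂ) (C : ℝ) (h : ∀ R, SS R g ≤ C) (z : ℂ) (hz : ‖z‖ ≤ 1) :
    Summable (fun n : ℕ => PowerSeries.coeff n g * z^n) :=
  Summable.of_norm_bounded (summable_of_SS g C h) (norm_mul_pow_le g z hz)

lemma norm_eval_le (g : PowerSeries ℂ) (C : ℝ) (h : ∀ R, SS R g ≤ C) (z : ℂ) (hz : ‖z‖ ≤ 1) :
    ‖∑' n : ℕ, PowerSeries.coeff n g * z^n‖ ≤ C :=
  (tsum_of_norm_bounded (summable_of_SS g C h).hasSum (norm_mul_pow_le g z hz)).trans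
    (tsum_le_of_SS g C h)

lemma FK_eq (K : ℕ) (z : ℂ) : ∑' n : ℕ, PowerSeries.coeff n (fK K) * z^n = FK K z := by
  rw [tsum_eq_sum (s := range (MM K + 1))]
  · rw [Finset.sum_range_succ']
    unfold fK FK
    rw [coeff_ser_zero, zero_mul, add_zero]
    apply Finset.sum_congr rfl
    intro n _
    rw [coeff_ser_succ]
  · intro n hn
    rw [Finset.mem_range] at hn
    obtain ⟨m, rfl⟩ : ∃ m, n = m + 1 := ⟨n - 1, by omega⟩
    unfold fK
    rw [coeff_ser_succ, (inv K).asupp m (by omega)]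
    simp

lemma FF_sub_FK (K : ℕ) (z : ℂ) (hz : ‖z‖ ≤ 1) :
    ‖∑' n : ℕ, PowerSeries.coeff n ff * z^n - FK K z‖ ≤ (1/2)^K := by
  rw [← FK_eq, ← (summable_eval ff 2 SS_ff z hz).tsum_sub (summable_eval (fK K) 2 (SS_fK K) z hz)]
  have e : (fun n : ℕ => PowerSeries.coeff n ff * z^n - PowerSeries.coeff n (fK K) * z^n)
      = (fun n : ℕ => PowerSeries.coeff n (ff - fK K) * z^n) := by
    funext n
    rw [map_sub, sub_mul]
  rw [e]
  exact norm_eval_le _ _ (SS_diff K) z hz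

open Filter Topology in
lemma injOn_ff : Set.InjOn (fun z : ℂ => ∑' n : ℕ, PowerSeries.coeff n ff * z ^ n)
    (Metric.closedBall (0 : ℂ) 1) := by
  intro z hz w hw hzw
  rw [mem_closedBall_zero_iff] at hz hw
  simp only at hzw
  have h : ∀ K : ℕ, (1/2) * ‖z - w‖ ≤ 2 * (1/2:ℝ)^K := by
    intro K
    refine (FK_lower K z w hz hw).trans ?_
    have e : FK K z - FK K w = -(∑' n : ℕ, PowerSeries.coeff n ff * z^n - FK K z)
        + (∑' n : ℕ, PowerSeries.coeff n ff * w^n - FK K w) := by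
      rw [hzw]; ring
    rw [e]
    refine (norm_add_le _ _).trans ?_
    rw [norm_neg]
    have h1 := FF_sub_FK K z hz
    have h2 := FF_sub_FK K w hw
    linarith
  have ht : Tendsto (fun K : ℕ => 2 * (1/2:ℝ)^K) atTop (𝓝 0) := by
    have := (tendsto_pow_atTop_nhds_zero_of_lt_one (by norm_num : (0:ℝ) ≤ 1/2)
      (by norm_num : (1/2:ℝ) < 1)).const_mul 2
    simpa using this
  have h0 : (1/2) * ‖z - w‖ ≤ 0 := ge_of_tendsto' ht h
  have h1 : ‖z - w‖ = 0 := le_antisymm (by linarith) (norm_nonneg _)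
  exact sub_eq_zero.mp (norm_eq_zero.mp h1)

open Filter Topology in
/-- `X` is at distance at least `1/2` from the algebra generated by `ff`. -/
theorem dist_X_ge (p : Polynomial ℂ)
    (hs : Summable (fun n : ℕ => ‖PowerSeries.coeff n (Polynomial.aeval ff p)
      - PowerSeries.coeff n (PowerSeries.X : PowerSeries ℂ)‖)) :
    1/2 ≤ ∑' n : ℕ, ‖PowerSeries.coeff n (Polynomial.aeval ff p)
      - PowerSeries.coeff n (PowerSeries.X : PowerSeries ℂ)‖ := by
  have e : (fun n : ℕ => ‖PowerSeries.coeff n (Polynomial.aeval ff p)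
      - PowerSeries.coeff n (PowerSeries.X : PowerSeries ℂ)‖)
      = fun n : ℕ => ‖PowerSeries.coeff n (Polynomial.aeval ff p - PowerSeries.X)‖ := by
    funext n; rw [map_sub]
  rw [e] at hs ⊢
  set T := ∑' n : ℕ, ‖PowerSeries.coeff n (Polynomial.aeval ff p - PowerSeries.X)‖ with hT
  have h1 : ∀ K, ‖LL K (Polynomial.aeval ff p) - 1‖ ≤ 2 * T := by
    intro K
    have := LL_bound K (Polynomial.aeval ff p - PowerSeries.X)
    rw [LL_sub, LL_X] at this
    exact this.trans (mul_le_mul_of_nonneg_left (SS_le_tsum _ hs _) (by norm_num))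
  have h2 : Tendsto (fun K => ‖LL K (Polynomial.aeval ff p) - 1‖) atTop (𝓝 ‖(0:ℂ) - 1‖) :=
    ((LL_aeval_tendsto p).sub_const 1).norm
  have h3 : ‖(0:ℂ) - 1‖ ≤ 2 * T := le_of_tendsto' h2 h1
  rw [zero_sub, norm_neg, norm_one] at h3
  linarith

end Pool.Agent.H846R2.WG
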