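import Pool.Agent.H846R2.WGSeq

set_option autoImplicit false
open Finset

namespace Pool.Agent.H846R2.WG

/-- truncated coefficient norm -/
noncomputable def SS (R : ℕ) (g : PowerSeries ℂ) : ℝ := ∑ n ∈ range R, ‖PowerSeries.coeff n g‖

lemma SS_nonneg (R : ℕ) (g : PowerSeries ℂ) : 0 ≤ SS R g :=
  Finset.sum_nonneg (fun _ _ => norm_nonneg _)

lemma SS_add (R : ℕ) (g h : PowerSeries ℂ) : SS R (g + h) ≤ SS R g + SS R h := by
  unfold SS
  rw [← Finset.sum_add_distrib]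
  apply Finset.sum_le_sum
  intro n _
  rw [map_add]
  exact norm_add_le _ _

lemma SS_mul (R : ℕ) (g h : PowerSeries ℂ) : SS R (g * h) ≤ SS R g * SS R h := by
  unfold SS
  have h1 : ∑ n ∈ range R, ‖PowerSeries.coeff n (g * h)‖
      ≤ ∑ n ∈ range R, ∑ k ∈ range (n+1), ‖PowerSeries.coeff k g‖ * ‖PowerSeries.coeff (n-k) h‖ := by
    apply Finset.sum_le_sum
    intro n _
    rw [PowerSeries.coeff_mul, Finset.Nat.sum_antidiagonal_eq_sum_range_succ
      (fun i j => PowerSeries.coeff i g * PowerSeries.coeff j h)]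
    refine (norm_sum_le _ _).trans ?_
    apply Finset.sum_le_sum
    intro k _
    rw [norm_mul]
  refine h1.trans ?_
  rw [Finset.sum_range_diag_flip R (fun k j => ‖PowerSeries.coeff k g‖ * ‖PowerSeries.coeff j h‖),
    Finset.sum_mul]
  apply Finset.sum_le_sum
  intro k _
  rw [← Finset.mul_sum]
  apply mul_le_mul_of_nonneg_left _ (norm_nonneg _)
  apply Finset.sum_le_sum_of_subset_of_nonneg
  · intro x hx; rw [Finset.mem_range] at *; omega
  · intro _ _ _; exact norm_nonneg _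

lemma SS_one (R : ℕ) : SS R 1 ≤ 1 := by
  unfold SS
  have : ∀ n ∈ range R, ‖PowerSeries.coeff n (1 : PowerSeries ℂ)‖ = if n = 0 then 1 else 0 := by
    intro n _
    rw [PowerSeries.coeff_one]
    split_ifs <;> simp
  rw [Finset.sum_congr rfl this, Finset.sum_ite_eq']
  split_ifs <;> norm_num

lemma SS_pow (R : ℕ) (g : PowerSeries ℂ) (C : ℝ) (hg : SS R g ≤ C) (m : ℕ) :
    SS R (g ^ m) ≤ C ^ m := by
  have hC : 0 ≤ C := (SS_nonneg R g).trans hg
  induction m with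
  | zero => rw [pow_zero, pow_zero]; exact SS_one R
  | succ m ih =>
    rw [pow_succ, pow_succ]
    refine (SS_mul R _ _).trans ?_
    exact mul_le_mul ih hg (SS_nonneg _ _) (pow_nonneg hC m)

lemma SS_pow_sub (R : ℕ) (f g : PowerSeries ℂ) (δ : ℝ) (hf : SS R f ≤ 2) (hg : SS R g ≤ 2)
    (hfg : SS R (f - g) ≤ δ) (m : ℕ) :
    SS R (f ^ m - g ^ m) ≤ m * 2 ^ m * δ := by
  have hδ : 0 ≤ δ := (SS_nonneg _ _).trans hfg
  induction m with
  | zero => simp [SS]
  | succ m ih =>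
    have e : f ^ (m+1) - g^(m+1) = f * (f^m - g^m) + (f - g) * g^m := by ring
    rw [e]
    refine (SS_add R _ _).trans ?_
    have h1 := (SS_mul R f (f^m - g^m)).trans
      (mul_le_mul hf ih (SS_nonneg _ _) (by norm_num : (0:ℝ) ≤ 2))
    have h2 := (SS_mul R (f - g) (g^m)).trans
      (mul_le_mul hfg (SS_pow R g 2 hg m) (SS_nonneg _ _) hδ)
    have h3 : (0:ℝ) ≤ 2^m * δ := by positivity
    push_cast
    calc _ ≤ 2 * ((m:ℝ) * 2 ^ m * δ) + δ * 2 ^ m := add_le_add h1 h2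
      _ ≤ ((m:ℝ) + 1) * 2^(m+1) * δ := by rw [pow_succ]; nlinarith

/-- primitive power series with derivative coefficients `b` -/
noncomputable def ser (b : ℕ → ℝ) : PowerSeries ℂ :=
  PowerSeries.mk (fun n => if n = 0 then 0 else ((b (n-1) / n : ℝ) : ℂ))

lemma coeff_ser_zero (b : ℕ → ℝ) : PowerSeries.coeff 0 (ser b) = 0 := by
  simp [ser]

lemma coeff_ser_succ (b : ℕ → ℝ) (n : ℕ) :
    PowerSeries.coeff (n+1) (ser b) = ((b n / ((n:ℝ)+1) : ℝ) : ℂ) := by
  simp [ser]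

lemma ser_sub (a b : ℕ → ℝ) : ser a - ser b = ser (fun n => a n - b n) := by
  ext n
  cases n with
  | zero => rw [map_sub, coeff_ser_zero, coeff_ser_zero, coeff_ser_zero, sub_zero]
  | succ n =>
    rw [map_sub, coeff_ser_succ, coeff_ser_succ, coeff_ser_succ, ← Complex.ofReal_sub]
    congr 1
    ring

lemma SS_ser (b : ℕ → ℝ) (hb : ∀ n, 0 ≤ b n) (C : ℝ) (hC : 0 ≤ C)
    (h : ∀ R, ∑ n ∈ range R, b n / ((n:ℝ)+1) ≤ C) (R : ℕ) : SS R (ser b) ≤ C := by
  unfold SS
  cases R with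
  | zero => simpa using hC
  | succ R =>
    rw [Finset.sum_range_succ', coeff_ser_zero, norm_zero, add_zero]
    refine le_trans (le_of_eq ?_) (h R)
    apply Finset.sum_congr rfl
    intro n _
    rw [coeff_ser_succ, Complex.norm_real, Real.norm_eq_abs, abs_of_nonneg]
    exact div_nonneg (hb n) (by positivity)

noncomputable def ff : PowerSeries ℂ := ser bb
noncomputable def fK (K : ℕ) : PowerSeries ℂ := ser (aa K)

lemma SS_ff (R : ℕ) : SS R ff ≤ 2 := SS_ser bb bb_nonneg 2 (by norm_num) sum_bb_le R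

lemma SS_fK (K R : ℕ) : SS R (fK K) ≤ 2 := by
  apply SS_ser _ (inv K).anonneg 2 (by norm_num)
  intro R
  refine le_trans ?_ (sum_bb_le R)
  apply Finset.sum_le_sum
  intro n _
  exact div_le_div_of_nonneg_right (aa_le_bb K n) (by positivity)

lemma SS_diff (K R : ℕ) : SS R (ff - fK K) ≤ (1/2)^K := by
  unfold ff fK
  rw [ser_sub]
  apply SS_ser _ (fun n => sub_nonneg.mpr (aa_le_bb K n)) _ (by positivity)
  exact sum_diff_le K

/-- the functional -/
noncomputable def LL (K : ℕ) (g : PowerSeries ℂ) : ℂ :=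
  ∑ n ∈ range (MM K), ((cc K n : ℝ) : ℂ) * PowerSeries.coeff n g

lemma LL_add (K : ℕ) (g h : PowerSeries ℂ) : LL K (g + h) = LL K g + LL K h := by
  unfold LL
  rw [← Finset.sum_add_distrib]
  apply Finset.sum_congr rfl
  intro n _
  rw [map_add, mul_add]

lemma LL_smul (K : ℕ) (t : ℂ) (g : PowerSeries ℂ) : LL K (t • g) = t * LL K g := by
  unfold LL
  rw [Finset.mul_sum]
  apply Finset.sum_congr rfl
  intro n _
  rw [map_smul, smul_eq_mul]
  ring

lemma LL_sub (K : ℕ) (g h : PowerSeries ℂ) : LL K (g - h) = LL K g - LL K h := by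
  unfold LL
  rw [← Finset.sum_sub_distrib]
  apply Finset.sum_congr rfl
  intro n _
  rw [map_sub, mul_sub]

lemma LL_bound (K : ℕ) (g : PowerSeries ℂ) : ‖LL K g‖ ≤ 2 * SS (MM K) g := by
  unfold LL SS
  rw [Finset.mul_sum]
  refine (norm_sum_le _ _).trans ?_
  apply Finset.sum_le_sum
  intro n _
  rw [norm_mul, Complex.norm_real, Real.norm_eq_abs]
  apply mul_le_mul_of_nonneg_right _ (norm_nonneg _)
  have := (inv K).cB n
  have h2 : (0:ℝ) < (1/2)^K := by positivity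
  linarith

lemma LL_X (K : ℕ) : LL K PowerSeries.X = 1 := by
  unfold LL
  rw [Finset.sum_eq_single 1]
  · rw [PowerSeries.coeff_one_X, (inv K).c1]; simp
  · intro n _ hn
    rw [PowerSeries.coeff_X, if_neg hn, mul_zero]
  · intro h
    exfalso
    apply h
    have := lt_MM K
    rw [Finset.mem_range]
    omega

lemma LL_one (K : ℕ) : LL K 1 = 0 := by
  unfold LL
  apply Finset.sum_eq_zero
  intro n _
  rcases Nat.eq_zero_or_pos n with hn | hn
  · rw [hn, (inv K).c0]; simp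
  · rw [PowerSeries.coeff_one, if_neg (by omega), mul_zero]

lemma deriv_fK (K : ℕ) : PowerSeries.derivative ℂ (fK K) = PowerSeries.mk (fun n => ((aa K n : ℝ) : ℂ)) := by
  ext n
  rw [PowerSeries.coeff_derivative, PowerSeries.coeff_mk]
  unfold fK
  rw [coeff_ser_succ]
  push_cast
  have : ((n:ℂ) + 1) ≠ 0 := Nat.cast_add_one_ne_zero n
  field_simp

lemma coeff_pow_succ (K m n : ℕ) : PowerSeries.coeff (n+1) (fK K ^ (m+1)) =
    ((m:ℂ)+1) * ∑ l ∈ range (n+1), PowerSeries.coeff l (fK K ^ m) * ((aa K (n-l) : ℝ) : ℂ) / ((n:ℂ)+1) := by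
  have h := PowerSeries.coeff_derivative (R := ℂ) (fK K ^ (m+1)) n
  rw [Derivation.leibniz_pow, deriv_fK] at h
  have hn : ((n:ℂ) + 1) ≠ 0 := Nat.cast_add_one_ne_zero n
  rw [← Finset.sum_div, eq_comm, mul_div_assoc', div_eq_iff hn, ← h]
  simp only [Nat.add_sub_cancel, nsmul_eq_mul, smul_eq_mul]
  rw [← smul_eq_mul (a := ((m:ℂ)+1))]
  have : (((m+1:ℕ) : PowerSeries ℂ)) = PowerSeries.C ((m:ℂ)+1) := by
    push_cast; simp
  rw [this, PowerSeries.coeff_C_mul, PowerSeries.coeff_mul,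
    Finset.Nat.sum_antidiagonal_eq_sum_range_succ
      (fun i j => PowerSeries.coeff i (fK K ^ m) * PowerSeries.coeff j (PowerSeries.mk fun n => ((aa K n : ℝ) : ℂ)))]
  simp only [PowerSeries.coeff_mk, smul_eq_mul]

lemma LL_pow_succ (K m : ℕ) : LL K (fK K ^ (m+1)) =
    ((m:ℂ)+1) * ∑ l ∈ range (MM K), PowerSeries.coeff l (fK K ^ m) * ((E (aa K) (cc K) (MM K) l : ℝ) : ℂ) := by
  have h1 : LL K (fK K ^ (m+1)) = ∑ n ∈ range (MM K + 1), ((cc K n : ℝ) : ℂ) * PowerSeries.coeff n (fK K ^ (m+1)) := by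
    rw [Finset.sum_range_succ, (inv K).csupp (MM K) le_rfl]
    simp [LL]
  rw [h1, Finset.sum_range_succ', (inv K).c0]
  simp only [Complex.ofReal_zero, zero_mul, add_zero]
  have h2 : ∑ n ∈ range (MM K), ((cc K (n+1) : ℝ) : ℂ) * PowerSeries.coeff (n+1) (fK K ^ (m+1))
      = ((m:ℂ)+1) * ∑ n ∈ range (MM K), ∑ l ∈ range (n+1),
        (fun l j : ℕ => PowerSeries.coeff l (fK K ^ m) * (((aa K j : ℝ) : ℂ) * (((cc K (l+j+1) : ℝ) : ℂ) / ((l:ℂ)+(j:ℂ)+1)))) l (n-l) := by
    rw [Finset.mul_sum]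
    apply Finset.sum_congr rfl
    intro n _
    rw [coeff_pow_succ, mul_left_comm, Finset.mul_sum]
    congr 1
    apply Finset.sum_congr rfl
    intro l hl
    have hl' : l ≤ n := by have := Finset.mem_range.mp hl; omega
    have e1 : l + (n - l) + 1 = n + 1 := by omega
    have e2 : (l:ℂ) + ((n-l:ℕ):ℂ) = (n:ℂ) := by
      rw [← Nat.cast_add]; congr 1; omega
    simp only
    rw [e1, e2]
    ring
  rw [h2, Finset.sum_range_diag_flip (MM K) (fun l j : ℕ => PowerSeries.coeff l (fK K ^ m) *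
    (((aa K j : ℝ) : ℂ) * (((cc K (l+j+1) : ℝ) : ℂ) / ((l:ℂ)+(j:ℂ)+1))))]
  congr 1
  apply Finset.sum_congr rfl
  intro l _
  rw [← Finset.mul_sum]
  congr 1
  unfold E
  push_cast
  apply Finset.sum_subset
  · intro x hx; rw [Finset.mem_range] at *; omega
  · intro j _ hj
    rw [Finset.mem_range] at hj
    rw [(inv K).csupp (l+j+1) (by omega)]
    simp

lemma LL_fK_pow (K m : ℕ) : ‖LL K (fK K ^ (m+1))‖ ≤ ((m:ℝ)+1) * 2^(m+1) * (1/2)^K := by
  rw [LL_pow_succ, norm_mul]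
  have h1 : ‖((m:ℂ)+1)‖ = (m:ℝ)+1 := by
    have : ((m:ℂ)+1) = (((m:ℝ)+1 : ℝ) : ℂ) := by push_cast; rfl
    rw [this, Complex.norm_real, Real.norm_eq_abs, abs_of_nonneg (by positivity)]
  rw [h1, mul_assoc]
  apply mul_le_mul_of_nonneg_left _ (by positivity)
  refine (norm_sum_le _ _).trans ?_
  have h2 : ∀ l ∈ range (MM K), ‖PowerSeries.coeff l (fK K ^ m) * ((E (aa K) (cc K) (MM K) l : ℝ) : ℂ)‖
      ≤ ‖PowerSeries.coeff l (fK K ^ m)‖ * (2 * (1/2)^K) := by
    intro l _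
    rw [norm_mul, Complex.norm_real, Real.norm_eq_abs]
    apply mul_le_mul_of_nonneg_left _ (norm_nonneg _)
    refine ((inv K).EB l).trans ?_
    apply mul_le_mul_of_nonneg_right _ (by positivity)
    have h2 : (0:ℝ) < (1/2)^K := by positivity
    linarith
  refine (Finset.sum_le_sum h2).trans ?_
  rw [← Finset.sum_mul]
  have h3 : ∑ l ∈ range (MM K), ‖PowerSeries.coeff l (fK K ^ m)‖ ≤ 2^m :=
    SS_pow (MM K) (fK K) 2 (SS_fK K _) m
  calc _ ≤ 2^m * (2 * (1/2:ℝ)^K) := mul_le_mul_of_nonneg_right h3 (by positivity)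
    _ = 2^(m+1) * (1/2)^K := by rw [pow_succ]; ring

lemma LL_ff_pow (K m : ℕ) : ‖LL K (ff ^ m)‖ ≤ 3 * (m * 2^m) * (1/2)^K := by
  cases m with
  | zero => rw [pow_zero, LL_one]; simp
  | succ m =>
    have e : LL K (ff ^ (m+1)) = LL K (fK K ^ (m+1)) + LL K (ff ^ (m+1) - fK K ^ (m+1)) := by
      rw [LL_sub]; ring
    rw [e]
    refine (norm_add_le _ _).trans ?_
    have h1 := LL_fK_pow K m
    have h2 := (LL_bound K (ff ^ (m+1) - fK K ^ (m+1))).trans
      (mul_le_mul_of_nonneg_left (SS_pow_sub (MM K) ff (fK K) _ (SS_ff _) (SS_fK K _)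
        (SS_diff K _) (m+1)) (by norm_num : (0:ℝ) ≤ 2))
    push_cast at *
    linarith

open Filter Topology in
lemma LL_ff_pow_tendsto (m : ℕ) : Tendsto (fun K => LL K (ff ^ m)) atTop (𝓝 0) := by
  rw [tendsto_zero_iff_norm_tendsto_zero]
  have h : Tendsto (fun K : ℕ => 3 * ((m:ℝ) * 2^m) * (1/2:ℝ)^K) atTop (𝓝 0) := by
    have := (tendsto_pow_atTop_nhds_zero_of_lt_one (by norm_num : (0:ℝ) ≤ 1/2)
      (by norm_num : (1/2:ℝ) < 1)).const_mul (3 * ((m:ℝ) * 2^m))
    simpa using this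
  exact squeeze_zero (fun _ => norm_nonneg _) (fun K => LL_ff_pow K m) h

open Filter Topology in
lemma LL_aeval_tendsto (p : Polynomial ℂ) :
    Tendsto (fun K => LL K (Polynomial.aeval ff p)) atTop (𝓝 0) := by
  induction p using Polynomial.induction_on' with
  | add p q hp hq =>
    have := hp.add hq
    simp only [add_zero] at this
    refine this.congr ?_
    intro K
    rw [map_add, LL_add]
  | monomial n a =>
    have := (LL_ff_pow_tendsto n).const_mul a
    simp only [mul_zero] at this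
    refine this.congr ?_
    intro K
    rw [Polynomial.aeval_monomial, ← LL_smul, Algebra.smul_def]

end Pool.Agent.H846R2.WG
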