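import Pool.Agent.H846R2.WGStep

set_option autoImplicit false
open Finset

namespace Pool.Agent.H846R2.WG

structure St (K : ℕ) where
  a : ℕ → ℝ
  c : ℕ → ℝ
  M : ℕ
  inv : Inv K a c M

lemma inv0 : Inv 0 (fun n => if n = 0 then 1 else 0) (fun n => if n = 1 then 1 else 0) 2 := by
  constructor
  · simp
  · intro n; split_ifs <;> norm_num
  · intro n hn; rw [if_neg (by omega)]
  · simp
  · simp
  · intro n hn; rw [if_neg (by omega)]
  · intro n; split_ifs <;> norm_num
  · intro n
    unfold E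
    rw [Finset.sum_range_succ, Finset.sum_range_succ, Finset.sum_range_zero]
    rcases Nat.eq_zero_or_pos n with hn | hn
    · subst hn; norm_num
    · have : n ≠ 0 := by omega
      simp [this]
  · rw [Finset.sum_range_succ, Finset.sum_range_succ, Finset.sum_range_zero]
    norm_num
  · intro z _
    rw [Finset.sum_range_succ, Finset.sum_range_succ, Finset.sum_range_zero]
    norm_num
  · norm_num

lemma next_exists (K : ℕ) (s : St K) : ∃ t : St (K+1), (∀ n < s.M, t.a n = s.a n) ∧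
    (∀ n, s.a n ≤ t.a n) ∧ s.M ≤ t.M := by
  obtain ⟨a', c', M', h1, h2, h3, h4⟩ := step K s.a s.c s.M s.inv
  exact ⟨⟨a', c', M', h1⟩, h2, h3, h4⟩

noncomputable def seq : (K : ℕ) → St K
  | 0 => ⟨_, _, _, inv0⟩
  | K+1 => (next_exists K (seq K)).choose

lemma seq_spec (K : ℕ) : (∀ n < (seq K).M, (seq (K+1)).a n = (seq K).a n) ∧
    (∀ n, (seq K).a n ≤ (seq (K+1)).a n) ∧ (seq K).M ≤ (seq (K+1)).M :=
  (next_exists K (seq K)).choose_spec

/-- the truncated derivative coefficients -/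
noncomputable def aa (K n : ℕ) : ℝ := (seq K).a n
noncomputable def cc (K n : ℕ) : ℝ := (seq K).c n
noncomputable def MM (K : ℕ) : ℕ := (seq K).M

lemma inv (K : ℕ) : Inv K (aa K) (cc K) (MM K) := (seq K).inv

lemma MM_mono : Monotone MM := monotone_nat_of_le_succ (fun K => (seq_spec K).2.2)

lemma aa_agree (K n : ℕ) (hn : n < MM K) (d : ℕ) : aa (K+d) n = aa K n := by
  induction d with
  | zero => rfl
  | succ d ih =>
    rw [← ih, ← add_assoc]
    apply (seq_spec (K+d)).1
    exact lt_of_lt_of_le hn (MM_mono (by omega))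

lemma lt_MM (n : ℕ) : n + 1 < MM n := (inv n).KM

/-- the limiting derivative coefficients -/
noncomputable def bb (n : ℕ) : ℝ := aa n n

lemma bb_eq (K n : ℕ) (hn : n < MM K) : bb n = aa K n := by
  unfold bb
  rcases le_total n K with h | h
  · obtain ⟨d, rfl⟩ := Nat.exists_eq_add_of_le h
    exact (aa_agree n n (by have := lt_MM n; omega) d).symm
  · obtain ⟨d, rfl⟩ := Nat.exists_eq_add_of_le h
    exact aa_agree K (K+d) hn d

lemma bb_nonneg (n : ℕ) : 0 ≤ bb n := (inv n).anonneg n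

lemma aa_le_bb (K n : ℕ) : aa K n ≤ bb n := by
  rcases lt_or_ge n (MM K) with h | h
  · exact (bb_eq K n h).ge
  · rw [(inv K).asupp n h]; exact bb_nonneg n

lemma sum_bb_le (R : ℕ) : ∑ n ∈ range R, bb n / ((n:ℝ)+1) ≤ 2 := by
  have hR : R ≤ MM R := by have := lt_MM R; omega
  have h1 : ∑ n ∈ range R, bb n / ((n:ℝ)+1) ≤ ∑ n ∈ range (MM R), aa R n / ((n:ℝ)+1) := by
    rw [Finset.sum_congr rfl (fun n hn => by
      rw [bb_eq R n (lt_of_lt_of_le (Finset.mem_range.mp hn) hR)])]
    apply Finset.sum_le_sum_of_subset_of_nonneg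
    · intro x hx; rw [Finset.mem_range] at *; omega
    · intro i _ _
      exact div_nonneg ((inv R).anonneg i) (by positivity)
  rw [(inv R).asum] at h1
  have : (0:ℝ) < (1/2)^R := by positivity
  linarith

lemma sum_diff_le (K R : ℕ) : ∑ n ∈ range R, (bb n - aa K n) / ((n:ℝ)+1) ≤ (1/2)^K := by
  have h0 : ∀ n, 0 ≤ (bb n - aa K n) / ((n:ℝ)+1) := fun n =>
    div_nonneg (sub_nonneg.mpr (aa_le_bb K n)) (by positivity)
  have h1 : ∑ n ∈ range R, (bb n - aa K n) / ((n:ℝ)+1)
      ≤ ∑ n ∈ range (R + MM K), (bb n - aa K n) / ((n:ℝ)+1) := by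
    apply Finset.sum_le_sum_of_subset_of_nonneg
    · intro x hx; rw [Finset.mem_range] at *; omega
    · intro i _ _; exact h0 i
  have h2 : ∑ n ∈ range (R + MM K), (bb n - aa K n) / ((n:ℝ)+1)
      = ∑ n ∈ range (R + MM K), bb n / ((n:ℝ)+1) - ∑ n ∈ range (R + MM K), aa K n / ((n:ℝ)+1) := by
    rw [← Finset.sum_sub_distrib]
    apply Finset.sum_congr rfl
    intro n _
    ring
  have h3 : ∑ n ∈ range (R + MM K), aa K n / ((n:ℝ)+1) = ∑ n ∈ range (MM K), aa K n / ((n:ℝ)+1) := by
    symm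
    apply Finset.sum_subset
    · intro x hx; rw [Finset.mem_range] at *; omega
    · intro x _ hx
      rw [Finset.mem_range] at hx
      rw [(inv K).asupp x (by omega), zero_div]
  rw [h2, h3, (inv K).asum] at h1
  have := sum_bb_le (R + MM K)
  linarith

end Pool.Agent.H846R2.WG
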