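import Pool.Agent.H846R2.WGFejer

set_option autoImplicit false
set_option maxHeartbeats 4000000
set_option synthInstance.maxHeartbeats 400000
open Finset

namespace Pool.Agent.H846R2.WG

/-- the dual quantity `∑_j a_j c_{n+j+1}/(n+j+1)` -/
noncomputable def E (a c : ℕ → ℝ) (M n : ℕ) : ℝ :=
  ∑ j ∈ range M, a j * (c (n+j+1) / ((n:ℝ)+j+1))

structure Inv (K : ℕ) (a c : ℕ → ℝ) (M : ℕ) : Prop where
  a0 : a 0 = 1
  anonneg : ∀ n, 0 ≤ a n
  asupp : ∀ n, M ≤ n → a n = 0
  c0 : c 0 = 0
  c1 : c 1 = 1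
  csupp : ∀ n, M ≤ n → c n = 0
  cB : ∀ n, |c n| ≤ 2 - (1/2:ℝ)^K
  EB : ∀ n, |E a c M n| ≤ (2 - (1/2:ℝ)^K) * (1/2)^K
  asum : ∑ n ∈ range M, a n / ((n:ℝ)+1) = 2 - (1/2:ℝ)^K
  re : ∀ z : ℂ, ‖z‖ ≤ 1 → (1 + (1/2:ℝ)^K)/2 ≤ (∑ n ∈ range M, (a n : ℂ) * z^n).re
  KM : K + 2 ≤ M

/-- weights -/
noncomputable def mu (J i : ℕ) : ℝ := ((J:ℝ) - i)/(J+1)

lemma mu_nonneg {J i : ℕ} (h : i < J) : 0 ≤ mu J i := by
  unfold mu
  have : (i:ℝ) ≤ J := by exact_mod_cast h.le
  apply div_nonneg
  · linarith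
  · positivity

/-- new coefficients -/
noncomputable def wt (N J n : ℕ) : ℝ := ∑ i ∈ range J, mu J i * (if n = (i+1)*N then 1 else 0)

lemma wt_nonneg (N J n : ℕ) : 0 ≤ wt N J n := by
  unfold wt
  apply Finset.sum_nonneg
  intro i hi
  apply mul_nonneg (mu_nonneg (Finset.mem_range.mp hi))
  split_ifs <;> norm_num

lemma wt_small {N J n : ℕ} (h : n < N) : wt N J n = 0 := by
  unfold wt
  apply Finset.sum_eq_zero
  intro i _
  rw [if_neg, mul_zero]
  intro h'
  have : N ≤ (i+1)*N := Nat.le_mul_of_pos_left N (by omega)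
  omega

lemma wt_large {N J n : ℕ} (hN : 0 < N) (h : (J+1)*N ≤ n) : wt N J n = 0 := by
  unfold wt
  apply Finset.sum_eq_zero
  intro i hi
  rw [if_neg, mul_zero]
  intro h'
  have hi' : i < J := Finset.mem_range.mp hi
  have : (i+1)*N < (J+1)*N := Nat.mul_lt_mul_of_pos_right (by omega) hN
  omega

lemma sum_wt {R : Type*} [CommRing R] (ofR : ℝ →+* R) (N J : ℕ) (hN : 0 < N) (g : ℕ → R) :
    ∑ n ∈ range ((J+1)*N), ofR (wt N J n) * g n = ∑ i ∈ range J, ofR (mu J i) * g ((i+1)*N) := by
  unfold wt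
  simp only [map_sum, map_mul, Finset.sum_mul]
  rw [Finset.sum_comm]
  apply Finset.sum_congr rfl
  intro i hi
  have hi' : i < J := Finset.mem_range.mp hi
  rw [Finset.sum_eq_single ((i+1)*N)]
  · simp
  · intro b _ hb
    simp [hb]
  · intro h
    exfalso
    apply h
    rw [Finset.mem_range]
    exact Nat.mul_lt_mul_of_pos_right (by omega) hN

theorem step (K : ℕ) (a c : ℕ → ℝ) (M : ℕ) (h : Inv K a c M) :
    ∃ (a' c' : ℕ → ℝ) (M' : ℕ), Inv (K+1) a' c' M' ∧ (∀ n < M, a' n = a n) ∧
      (∀ n, a n ≤ a' n) ∧ M ≤ M' := by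
  set l : ℝ := (1/2:ℝ)^(K+1) with hl
  have hl0 : 0 < l := by positivity
  have hl1 : l ≤ 1/2 := by
    rw [hl, pow_succ]
    have : (1/2:ℝ)^K ≤ 1 := pow_le_one₀ (by norm_num) (by norm_num)
    linarith
  have h2l : (1/2:ℝ)^K = 2 * l := by rw [hl, pow_succ]; ring
  set A : ℝ := ∑ j ∈ range M, a j with hA
  have hA0 : 0 ≤ A := Finset.sum_nonneg (fun j _ => h.anonneg j)
  obtain ⟨N, hN⟩ := exists_nat_ge (2 * (M:ℝ) + 2 + 2 * M / l + 2 * A / l^2)
  have hMl : 0 ≤ 2 * (M:ℝ) / l := by positivity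
  have hAl : 0 ≤ 2 * A / l^2 := by positivity
  have hM0 : (0:ℝ) ≤ M := Nat.cast_nonneg M
  have hN1 : 2 * M + 2 ≤ N := by
    have : (2 * (M:ℝ) + 2) ≤ N := by linarith
    exact_mod_cast this
  have hN2 : 2 * (M:ℝ) / l ≤ N := by linarith
  have hN3 : 2 * A / l^2 ≤ N := by linarith
  have hNpos : 0 < N := by omega
  have hNR : (0:ℝ) < N := by exact_mod_cast hNpos
  have hMN : 2 * (M:ℝ) / N ≤ l := by
    rw [div_le_iff₀ hNR]
    rw [div_le_iff₀ hl0] at hN2
    linarith
  have hAN : 2 * A / N ≤ l^2 := by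
    rw [div_le_iff₀ hNR]
    rw [div_le_iff₀ (by positivity)] at hN3
    linarith
  obtain ⟨J, hJ⟩ := exists_J N
  set S : ℝ := ∑ i ∈ range J, mu J i / (1 + ((i:ℝ)+1)*N) with hS
  have hS1 : 1 ≤ S := hJ
  set ε : ℝ := l / S with hε
  have hε0 : 0 < ε := by positivity
  have hεl : ε ≤ l := by
    rw [hε, div_le_iff₀ (by positivity)]
    nlinarith
  have hεS : ε * S = l := by
    rw [hε]; field_simp
  set B : ℝ := 2 - (1/2:ℝ)^K with hB
  have hB' : B = 2 - 2 * l := by rw [hB, h2l]
  have hB2 : B ≤ 2 := by rw [hB']; linarith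
  have hB1 : 1 ≤ B := by rw [hB']; linarith
  set D : ℕ → ℝ := fun n => -(2:ℝ)^K * E a c M n with hD
  have h2K : (2:ℝ)^K * (1/2)^K = 1 := by rw [← mul_pow]; norm_num
  have hED : ∀ n, E a c M n = -(2*l) * D n := by
    intro n
    rw [hD, ← h2l]
    simp only
    have : -(1/2:ℝ)^K * (-(2:ℝ)^K * E a c M n) = ((2:ℝ)^K * (1/2)^K) * E a c M n := by ring
    rw [this, h2K, one_mul]
  have hDB : ∀ n, |D n| ≤ B := by
    intro n
    rw [hD]
    simp only
    rw [abs_mul, abs_neg, abs_of_pos (by positivity : (0:ℝ) < 2^K)]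
    have := h.EB n
    calc (2:ℝ)^K * |E a c M n| ≤ (2:ℝ)^K * (B * (1/2)^K) := by
          apply mul_le_mul_of_nonneg_left this (by positivity)
      _ = B * ((2:ℝ)^K * (1/2)^K) := by ring
      _ = B := by rw [h2K, mul_one]
  -- new data
  set a' : ℕ → ℝ := fun n => a n + ε * wt N J n with ha'
  set c' : ℕ → ℝ := fun m => if m < N then c m else
      if m / N ≤ J ∧ m % N ≠ 0 then D (m % N - 1) else 0 with hc'
  set M' : ℕ := (J+1)*N with hM'
  have hNM' : N ≤ M' := by rw [hM']; exact Nat.le_mul_of_pos_left N (by omega)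
  have hMM' : M ≤ M' := by omega
  have hcB' : ∀ n, |c' n| ≤ B := by
    intro n
    rw [hc']
    simp only
    split_ifs
    · exact h.cB n
    · exact hDB _
    · rw [abs_zero]; linarith
  have sumM : ∀ g : ℕ → ℝ, (∀ n, M ≤ n → g n = 0) → ∑ n ∈ range M', g n = ∑ n ∈ range M, g n := by
    intro g hg
    symm
    apply Finset.sum_subset
    · intro x hx; rw [Finset.mem_range] at *; omega
    · intro x _ hx
      apply hg
      rw [Finset.mem_range] at hx
      omega
  have hEsplit : ∀ n, E a' c' M' n = ∑ j ∈ range M, a j * (c' (n+j+1) / ((n:ℝ)+j+1))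
      + ε * ∑ i ∈ range J, mu J i * (c' (n+(i+1)*N+1) / ((n:ℝ)+((i+1)*N:ℕ)+1)) := by
    intro n
    unfold E
    have e1 : ∀ j, a' j * (c' (n+j+1) / ((n:ℝ)+j+1)) = a j * (c' (n+j+1) / ((n:ℝ)+j+1))
        + ε * (wt N J j * (c' (n+j+1) / ((n:ℝ)+j+1))) := by
      intro j
      rw [ha']
      simp only
      ring
    rw [Finset.sum_congr rfl (fun j _ => e1 j), Finset.sum_add_distrib, ← Finset.mul_sum]
    congr 1
    · apply sumM
      intro j hj
      rw [h.asupp j hj, zero_mul]
    · congr 1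
      exact sum_wt (RingHom.id ℝ) N J hNpos (fun j => c' (n+j+1) / ((n:ℝ)+j+1))
  have hEB' : ∀ n, |E a' c' M' n| ≤ (2 - l) * l := by
    intro n
    rw [hEsplit n]
    rcases lt_or_ge n M with hn | hn
    · have f1 : ∑ j ∈ range M, a j * (c' (n+j+1) / ((n:ℝ)+j+1)) = E a c M n := by
        unfold E
        apply Finset.sum_congr rfl
        intro j hj
        have hj' : j < M := Finset.mem_range.mp hj
        have : c' (n+j+1) = c (n+j+1) := by
          rw [hc']
          simp only
          rw [if_pos (by omega)]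
        rw [this]
      have f2 : ∀ i ∈ range J, mu J i * (c' (n+(i+1)*N+1) / ((n:ℝ)+((i+1)*N:ℕ)+1))
          = D n * (mu J i / ((n:ℝ)+((i+1)*N:ℕ)+1)) := by
        intro i hi
        have hi' : i < J := Finset.mem_range.mp hi
        have e0 : n + (i+1)*N + 1 = (n+1) + N * (i+1) := by ring
        have e1 : (n + (i+1)*N + 1) / N = i + 1 := by
          rw [e0, Nat.add_mul_div_left _ _ hNpos, Nat.div_eq_of_lt (by omega), zero_add]
        have e2 : (n + (i+1)*N + 1) % N = n + 1 := by
          rw [e0, Nat.add_mul_mod_self_left, Nat.mod_eq_of_lt (by omega)]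
        have e3 : ¬ (n + (i+1)*N + 1 < N) := by
          intro hlt
          rw [Nat.div_eq_of_lt hlt] at e1
          omega
        have : c' (n+(i+1)*N+1) = D n := by
          rw [hc']
          simp only
          rw [if_neg e3, e1, e2, if_pos ⟨by omega, by omega⟩]
          congr 1
        rw [this]
        ring
      rw [f1, Finset.sum_congr rfl f2, ← Finset.mul_sum, hED n]
      set κ : ℝ := ε * ∑ i ∈ range J, mu J i / ((n:ℝ)+((i+1)*N:ℕ)+1) with hκ
      have k1 : κ ≤ l := by
        rw [hκ, ← hεS]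
        apply mul_le_mul_of_nonneg_left _ hε0.le
        rw [hS]
        apply Finset.sum_le_sum
        intro i hi
        apply div_le_div_of_nonneg_left (mu_nonneg (Finset.mem_range.mp hi)) (by positivity)
        push_cast
        have : (0:ℝ) ≤ n := Nat.cast_nonneg n
        linarith
      have k2 : l - l * (M / N) ≤ κ := by
        have : l - l * (M/N) = ε * (S * (1 - M/N)) := by rw [← mul_assoc, hεS]; ring
        rw [this, hκ]
        apply mul_le_mul_of_nonneg_left _ hε0.le
        rw [hS, Finset.sum_mul]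
        apply Finset.sum_le_sum
        intro i hi
        have hmu := mu_nonneg (Finset.mem_range.mp hi)
        have hnM : (n:ℝ) ≤ M := by exact_mod_cast hn.le
        have hn0 : (0:ℝ) ≤ n := Nat.cast_nonneg n
        have hd1 : (0:ℝ) < 1 + ((i:ℝ)+1)*N := by positivity
        have hd2 : (0:ℝ) < (n:ℝ)+((i+1)*N:ℕ)+1 := by positivity
        rw [div_mul_eq_mul_div, div_le_div_iff₀ hd1 hd2]
        push_cast
        have hx : (1 - (M:ℝ)/N) * ((n:ℝ) + ((i:ℝ)+1)*N + 1) ≤ 1 + ((i:ℝ)+1)*N := by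
          have hi0 : (0:ℝ) ≤ i := Nat.cast_nonneg i
          have q1 : (M:ℝ) ≤ (M:ℝ)/N * (((i:ℝ)+1)*N) := by
            have : (M:ℝ)/N * (((i:ℝ)+1)*N) = M * (i+1) := by field_simp
            rw [this]
            nlinarith
          have q2 : 0 ≤ (M:ℝ)/N := by positivity
          nlinarith
        calc mu J i * (1 - (M:ℝ)/N) * ((n:ℝ) + ((i:ℝ)+1)*N + 1)
            = mu J i * ((1 - (M:ℝ)/N) * ((n:ℝ) + ((i:ℝ)+1)*N + 1)) := by ring
          _ ≤ mu J i * (1 + ((i:ℝ)+1)*N) := mul_le_mul_of_nonneg_left hx hmu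
      have e4 : -(2*l) * D n + ε * (D n * ∑ i ∈ range J, mu J i / ((n:ℝ)+((i+1)*N:ℕ)+1))
          = -(2 * l - κ) * D n := by
        rw [hκ]; ring
      rw [e4, abs_mul, abs_neg, abs_of_nonneg (by linarith : 0 ≤ 2*l - κ)]
      have k3 : 2 * l - κ ≤ l + l * (M/N) := by linarith
      calc (2 * l - κ) * |D n| ≤ (l + l * (M/N)) * B := by
            apply mul_le_mul k3 (hDB n) (abs_nonneg _)
            positivity
        _ = l * (B + B * (M/N)) := by ring
        _ ≤ l * (B + l) := by
            apply mul_le_mul_of_nonneg_left _ hl0.le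
            have : B * ((M:ℝ)/N) ≤ 2 * (M/N) := mul_le_mul_of_nonneg_right hB2 (by positivity)
            have e5 : 2 * ((M:ℝ)/N) = 2 * M / N := by ring
            linarith
        _ = (2 - l) * l := by rw [hB']; ring
    · have g1 : |∑ j ∈ range M, a j * (c' (n+j+1) / ((n:ℝ)+j+1))| ≤ A * (B / N) := by
        rw [hA, Finset.sum_mul]
        refine (Finset.abs_sum_le_sum_abs _ _).trans ?_
        apply Finset.sum_le_sum
        intro j hj
        rw [abs_mul, abs_of_nonneg (h.anonneg j)]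
        apply mul_le_mul_of_nonneg_left _ (h.anonneg j)
        rcases lt_or_ge (n+j+1) N with hlt | hge
        · have : c' (n+j+1) = 0 := by
            rw [hc']
            simp only
            rw [if_pos hlt]
            exact h.csupp _ (by omega)
          rw [this, zero_div, abs_zero]
          positivity
        · have hge' : (N:ℝ) ≤ (n:ℝ)+j+1 := by exact_mod_cast hge
          rw [abs_div, abs_of_pos (by positivity : (0:ℝ) < (n:ℝ)+j+1)]
          exact div_le_div₀ (by linarith) (hcB' _) hNR hge'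
      have g2 : |∑ i ∈ range J, mu J i * (c' (n+(i+1)*N+1) / ((n:ℝ)+((i+1)*N:ℕ)+1))| ≤ S * B := by
        rw [hS, Finset.sum_mul]
        refine (Finset.abs_sum_le_sum_abs _ _).trans ?_
        apply Finset.sum_le_sum
        intro i hi
        have hmu := mu_nonneg (Finset.mem_range.mp hi)
        rw [abs_mul, abs_of_nonneg hmu, div_mul_eq_mul_div, mul_div_assoc]
        apply mul_le_mul_of_nonneg_left _ hmu
        rw [abs_div, abs_of_pos (by positivity : (0:ℝ) < (n:ℝ)+((i+1)*N:ℕ)+1)]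
        apply div_le_div₀ (by linarith) (hcB' _) (by positivity)
        push_cast
        have : (0:ℝ) ≤ n := Nat.cast_nonneg n
        linarith
      refine (abs_add_le _ _).trans ?_
      rw [abs_mul, abs_of_pos hε0]
      have g3 : ε * |∑ i ∈ range J, mu J i * (c' (n+(i+1)*N+1) / ((n:ℝ)+((i+1)*N:ℕ)+1))| ≤ l * B := by
        calc _ ≤ ε * (S * B) := mul_le_mul_of_nonneg_left g2 hε0.le
          _ = l * B := by rw [← mul_assoc, hεS]
      have g4 : A * (B / N) ≤ l^2 := by
        calc A * (B/N) = B * (A / N) := by ring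
          _ ≤ 2 * (A/N) := mul_le_mul_of_nonneg_right hB2 (by positivity)
          _ = 2 * A / N := by ring
          _ ≤ l^2 := hAN
      calc _ ≤ l^2 + l * B := add_le_add (g1.trans g4) g3
        _ = (2 - l) * l := by rw [hB']; ring
  have hwt0 : ∀ n, 0 ≤ ε * wt N J n := fun n => mul_nonneg hε0.le (wt_nonneg _ _ _)
  refine ⟨a', c', M', ?_, ?_, ?_, hMM'⟩
  · constructor
    · rw [ha']; simp only; rw [wt_small hNpos, mul_zero, add_zero, h.a0]
    · intro n; exact add_nonneg (h.anonneg n) (hwt0 n)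
    · intro n hn
      rw [ha']; simp only
      rw [h.asupp n (by omega), wt_large hNpos hn, mul_zero, add_zero]
    · rw [hc']; simp only; rw [if_pos hNpos, h.c0]
    · rw [hc']; simp only; rw [if_pos (by omega), h.c1]
    · intro n hn
      rw [hc']; simp only
      rw [if_neg (by omega), if_neg]
      intro hh
      have : J + 1 ≤ n / N := (Nat.le_div_iff_mul_le hNpos).mpr hn
      omega
    · intro n
      refine (hcB' n).trans ?_
      rw [hB', ← hl]; linarith
    · rw [← hl]; exact hEB'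
    · rw [← hl]
      have e1 : ∀ n ∈ range M', a' n / ((n:ℝ)+1) = a n / ((n:ℝ)+1)
          + ε * (wt N J n * (1 / ((n:ℝ)+1))) := by
        intro n _
        rw [ha']; simp only; ring
      rw [Finset.sum_congr rfl e1, Finset.sum_add_distrib, ← Finset.mul_sum,
        sumM _ (fun n hn => by rw [h.asupp n hn, zero_div]), h.asum]
      have e2 := sum_wt (RingHom.id ℝ) N J hNpos (fun n => 1 / ((n:ℝ)+1))
      simp only [RingHom.id_apply] at e2
      rw [← hM'] at e2
      rw [e2]
      have e3 : ∑ i ∈ range J, mu J i * (1 / ((((i+1)*N : ℕ):ℝ)+1)) = S := by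
        rw [hS]
        apply Finset.sum_congr rfl
        intro i _
        push_cast
        rw [mul_one_div, add_comm]
      rw [e3, hεS, h2l]
      ring
    · intro z hz
      rw [← hl]
      have e1 : ∀ n ∈ range M', ((a' n : ℝ) : ℂ) * z^n = (a n : ℂ) * z^n
          + ε * (((wt N J n : ℝ):ℂ) * z^n) := by
        intro n _
        rw [ha']; simp only; push_cast; ring
      have e0 : ∑ n ∈ range M', (a n : ℂ) * z^n = ∑ n ∈ range M, (a n : ℂ) * z^n := by
        symm
        apply Finset.sum_subset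
        · intro x hx; rw [Finset.mem_range] at *; omega
        · intro x _ hx
          rw [Finset.mem_range] at hx
          rw [h.asupp x (by omega)]; simp
      rw [Finset.sum_congr rfl e1, Finset.sum_add_distrib, ← Finset.mul_sum, e0]
      have e2 := sum_wt Complex.ofRealHom N J hNpos (fun n => z^n)
      simp only [Complex.ofRealHom_eq_coe] at e2
      rw [← hM'] at e2
      rw [e2, Complex.add_re, Complex.re_ofReal_mul]
      have e3 : ∑ i ∈ range J, ((mu J i : ℝ):ℂ) * z ^ ((i+1)*N)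
          = ∑ i ∈ range J, ((((J:ℝ) - i)/(J+1) : ℝ) : ℂ) * (z^N) ^ (i+1) := by
        apply Finset.sum_congr rfl
        intro i _
        rw [← pow_mul, mul_comm N (i+1)]
        rfl
      rw [e3]
      have hzN : ‖z^N‖ ≤ 1 := by rw [norm_pow]; exact pow_le_one₀ (norm_nonneg _) hz
      have e4 := fejer_re (z^N) hzN J
      have e5 := h.re z hz
      rw [h2l] at e5
      nlinarith
    · have := h.KM; omega
  · intro n hn
    rw [ha']; simp only
    rw [wt_small (by omega), mul_zero, add_zero]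
  · intro n
    rw [ha']; simp only
    linarith [hwt0 n]

end Pool.Agent.H846R2.WG
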